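import Pool.Graph.R_pool_sql_team_seeded_3997aac3.Q124.ESN.CNTG
import Pool.Graph.R_pool_sql_team_seeded_3997aac3.Q65.ESN.Locg
import Pool.Graph.R_pool_sql_team_seeded_3997aac3.Q68.ESN.Mn
import Pool.Graph.R_pool_sql_team_seeded_3997aac3.Q65.ESN.VgNig
import Pool.Graph.R_pool_sql_team_seeded_3997aac3.Q190.ESN.Rpx
import Pool.Graph.R_pool_sql_team_seeded_3997aac3.Q190.ESN.Sem3
import Pool.Graph.R_pool_sql_team_seeded_3997aac3.Q190.ESN.Base
import Pool.Graph.R_pool_sql_team_seeded_3997aac3.Q190.ESN.Exc2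
import Pool.Graph.R_pool_sql_team_seeded_3997aac3.Q190.ESN.Evx
import Pool.Graph.R_pool_sql_team_seeded_3997aac3.Q184.ESN.ZEX
import Pool.Graph.R_pool_sql_team_seeded_3997aac3.Q79.ESN.GEN
import Pool.Graph.R_pool_sql_team_seeded_3997aac3.Q79.ESN.RES
import Pool.Graph.R_pool_sql_team_seeded_3997aac3.Q238.ESN.LJG
import Pool.Graph.R_pool_sql_team_seeded_3997aac3.Q241.ESN.AN
import Pool.Graph.R_pool_sql_team_seeded_3997aac3.Q150.ESN.Bx
import Pool.Graph.R_pool_sql_team_seeded_3997aac3.Q150.ESN.Ch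
import Pool.Graph.R_pool_sql_team_seeded_3997aac3.Q195.ESN.ST
import Pool.Graph.R_pool_sql_team_seeded_3997aac3.Q182.ESN.RBX
import Pool.Graph.R_pool_sql_team_seeded_3997aac3.Q121.ESN.RB
import Pool.Graph.R_pool_sql_team_seeded_3997aac3.Q123.ESN.Mom2
import Pool.Graph.R_pool_sql_team_seeded_3997aac3.Q153.ESN.FRX
import Pool.Graph.R_pool_sql_team_seeded_3997aac3.Q68.ESN.N1f
import Pool.Graph.R_pool_sql_team_seeded_3997aac3.Q285.ESN.Cnf
import Pool.Graph.R_pool_sql_team_seeded_3997aac3.Q208.ESN.Sys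
import Pool.Graph.R_pool_sql_team_seeded_3997aac3.Q285.ESM.GS
import Pool.Graph.R_pool_sql_team_seeded_3997aac3.Q195.ESM.FR
import Pool.Graph.R_pool_sql_team_seeded_3997aac3.Q24.ESM.SM
import Pool.Graph.R_pool_sql_team_seeded_3997aac3.Q184.ESM.Lsf2
import Pool.Graph.R_pool_sql_team_seeded_3997aac3.Q237.ESM.Key
import Pool.Graph.R_pool_sql_team_seeded_3997aac3.Q129.ESM.LCU
import Pool.Graph.R_pool_sql_team_seeded_3997aac3.Q299.ESM.Lct
import Pool.Graph.R_pool_sql_team_seeded_3997aac3.Q24.ESM.ADD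
import Pool.Graph.R_pool_sql_team_seeded_3997aac3.Q14.ESM.SUF

/-!
# All parts of project ESN (helper161) together (helper575)
-/

set_option autoImplicit false

namespace Pool.Agent.H575.ES

open Pool.Agent.Q161.ESN

theorem t_an : S_AN := by
  have rb := Pool.Agent.Q121.ESN.rb
  have rbx := Pool.Agent.Q182.ESN.RBX.rbx rb
  have gs := Pool.Agent.Q285.ESM.gs
  have fr := Pool.Agent.Q195.ESM.FR.fr gs
  have st := Pool.Agent.Q195.ESN.ST.st fr rb rbx
  have ch := Pool.Agent.Q150.ESN.ch st rb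
  have bx := Pool.Agent.Q150.ESN.BX.bx ch gs
  exact Pool.Agent.Q241.ESN.an bx Pool.Agent.Q24.ESM.SM.sm

theorem t_sys : S_SYS := by
  have evx := Pool.Agent.Q190.ESN.evx
  have frx := Pool.Agent.Q153.ESN.frx
  have res := Pool.Agent.Q79.ESN.res evx
  have n1f := Pool.Agent.Q68.ESN.n1f evx res
  have mom2 := Pool.Agent.Q123.ESN.mom2 Pool.Agent.Q184.ESM.lsf2
  have exc2 := Pool.Agent.Q190.ESN.exc2 mom2
  have cnf := Pool.Agent.Q285.ESN.cnf Pool.Agent.Q237.ESM.key Pool.Agent.Q129.ESM.lcu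
    Pool.Agent.Q299.ESM.lct
  exact Pool.Agent.Q208.ESN.sys cnf evx frx res n1f exc2

theorem t_mn : S_MN := Pool.Agent.Q68.ESN.mn t_sys t_an Pool.Agent.Q190.ESN.evx

theorem t_cntg : S_CNTG := by
  have suf := Pool.Agent.Q14.ESM.suf
  have evx := Pool.Agent.Q190.ESN.evx
  have frx := Pool.Agent.Q153.ESN.frx
  have zex := Pool.Agent.Q184.ESN.zex Pool.Agent.Q79.ESN.gen evx frx
  have relg := Pool.Agent.Q124.ESN.relg Pool.Agent.Q190.ESN.nrm zex (Pool.Agent.Q190.ESN.qag suf)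
    (Pool.Agent.Q190.ESN.qdg suf) frx
  have locg := Pool.Agent.Q65.ESN.locg Pool.Agent.Q65.ESN.dualg Pool.Agent.Q24.ESM.add
    Pool.Agent.Q238.ESN.ljg
  exact Pool.Agent.Q124.ESN.cntg Pool.Agent.Q65.ESN.nig Pool.Agent.Q190.ESN.rpx relg locg t_mn

end Pool.Agent.H575.ES
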