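import Pool.Agent.H575.ES.Stm

/-!
# Project ES (helper575): the number of the quadratic twists
-/

set_option autoImplicit false

namespace Pool.Agent.H575.ES

/-- JOB LOW. There are at least `c X` classes of `F^*/F^*²` with `cond ≤ X`.
Proof.  Choose for every nonzero principal ideal `I` of `𝓞 F` one generator `D_I`.  The ideal `I = (D_I)` is `J * M ^ 2`, where `J` is the
product of the primes with `Par v D_I 1` (odd valuation); `cond D_I = N J`.  The number of the principal `I` with `N I ≤ X` is at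
least `c₀ X` (`X ≥ 1`; Mathlib: `NumberField.Ideal.tendsto_norm_le_and_mk_eq_div_atTop`, or the asymptotics of the number of all
ideals and a pigeonhole: an ideal class `κ` with at least `c X` ideals, times a fixed integral ideal of the class `κ⁻¹`).  Let
`f Y` be the maximal size of a set of `D` with `cond D ≤ Y`, pairwise not square multiples of each other; `f Y ≤ C Y` (upper
bound: the hypothesis `hU`).  An `I` with `N I ≤ X` is determined by the class of `D_I` modulo squares and `M` (the class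
determines `J`), so `c₀ X ≤ ∑_{M} f (X / N M ^ 2) ≤ (number of M with N M ≤ T) * f X + C X ∑_{N M > T} 1 / N M ^ 2`; the
sum over all ideals converges (`∑_M N M ^ (-2)`: Dedekind zeta at 2, or the number of the ideals of norm `n` is `≤ C n^(1/2)`, or dyadic
blocks with the bound `C Y` for the number of ideals with norm `≤ Y`); take `T` with `C ∑_{N M > T} ≤ c₀/2`. -/
def S_LOW : Prop := ∀ (F : Type) [Field F] [NumberField F],
  (∃ C : ℝ, 0 < C ∧ ∀ (X : ℝ) (𝒟 : Finset F), 1 ≤ X → (∀ D ∈ 𝒟, D ≠ 0 ∧ (cond D : ℝ) ≤ X) →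
    (∀ D ∈ 𝒟, ∀ D' ∈ 𝒟, D ≠ D' → ¬ IsSquare (D * D')) → (𝒟.card : ℝ) ≤ C * X) →
  ∃ c : ℝ, 0 < c ∧ ∀ X : ℝ, 1 ≤ X → ∃ 𝒟 : Finset F, (∀ D ∈ 𝒟, D ≠ 0 ∧ (cond D : ℝ) ≤ X) ∧
    (∀ D ∈ 𝒟, ∀ D' ∈ 𝒟, D ≠ D' → ¬ IsSquare (D * D')) ∧ c * X ≤ (𝒟.card : ℝ)

end Pool.Agent.H575.ES
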