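import Pool.Agent.H575.ES.Fin
import Pool.Agent.H575.ES.StmLow

/-!
# Project ES (helper575): averages over all quadratic twists
-/

set_option autoImplicit false
set_option linter.all false

open scoped Classical

namespace Pool.Agent.H575.ES

open Polynomial NumberField IsDedekindDomain
open Pool.Agent.Q161.ESF (Sel2 Sha T2)

/-- `𝒟` contains exactly one representative of every class `D` of `F^*/F^*²` with `cond D ≤ X`, and nothing else: the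
quadratic twists with conductor of norm at most `X` -/
def AllTw (F : Type) [Field F] [NumberField F] (X : ℝ) (𝒟 : Finset F) : Prop :=
  (∀ D ∈ 𝒟, D ≠ 0 ∧ (cond D : ℝ) ≤ X) ∧
    ∀ D : F, D ≠ 0 → (cond D : ℝ) ≤ X → ∃! D' : F, D' ∈ 𝒟 ∧ IsSquare (D * D')

theorem AllTw.pw {F : Type} [Field F] [NumberField F] {X : ℝ} {𝒟 : Finset F} (h : AllTw F X 𝒟) :
    ∀ D ∈ 𝒟, ∀ D' ∈ 𝒟, D ≠ D' → ¬ IsSquare (D * D') := by
  intro D hD D' hD' hne hsq
  obtain ⟨E, -, hE⟩ := h.2 D (h.1 D hD).1 (h.1 D hD).2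
  exact hne ((hE D ⟨hD, ⟨D, rfl⟩⟩).trans (hE D' ⟨hD', hsq⟩).symm)

/-- the number of the twists is at most `C X` -/
theorem card_le (F : Type) [Field F] [NumberField F] :
    ∃ C : ℝ, 0 < C ∧ ∀ (X : ℝ) (𝒟 : Finset F), 1 ≤ X → (∀ D ∈ 𝒟, D ≠ 0 ∧ (cond D : ℝ) ≤ X) →
    (∀ D ∈ 𝒟, ∀ D' ∈ 𝒟, D ≠ D' → ¬ IsSquare (D * D')) → (𝒟.card : ℝ) ≤ C * X := by
  obtain ⟨C, hC, h⟩ := cnt F (Fin 0) (fun _ => 0) (fun _ => 0) (fun i => i.elim0)
  refine ⟨C, hC, fun X 𝒟 hX hD hs => ?_⟩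
  have := (h X 𝒟 hX hD hs).2
  simpa using this

/-- complete sets of twists exist -/
theorem exists_allTw (F : Type) [Field F] [NumberField F] (X : ℝ) (hX : 1 ≤ X) : ∃ 𝒟 : Finset F, AllTw F X 𝒟 := by
  obtain ⟨C, hC, h⟩ := card_le F
  -- a set of maximal cardinality
  set P : ℕ → Prop := fun n => ∃ 𝒟 : Finset F, (∀ D ∈ 𝒟, D ≠ 0 ∧ (cond D : ℝ) ≤ X) ∧
    (∀ D ∈ 𝒟, ∀ D' ∈ 𝒟, D ≠ D' → ¬ IsSquare (D * D')) ∧ 𝒟.card = n with hP
  obtain ⟨N, hN⟩ := exists_nat_ge (C * X)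
  have hb : ∀ n, P n → n ≤ N := by
    rintro n ⟨𝒟, h1, h2, rfl⟩
    exact_mod_cast (h X 𝒟 hX h1 h2).trans hN
  have h0 : P 0 := ⟨∅, by simp, by simp, rfl⟩
  have hm := Nat.findGreatest_spec (P := P) (Nat.zero_le N) h0
  obtain ⟨𝒟, h1, h2, h3⟩ := hm
  refine ⟨𝒟, h1, fun D hD hDX => ?_⟩
  have hex : ∃ D' ∈ 𝒟, IsSquare (D * D') := by
    by_contra hno
    push Not at hno
    have hDm : D ∉ 𝒟 := fun hm => hno D hm ⟨D, rfl⟩
    have hP' : P (𝒟.card + 1) := by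
      refine ⟨insert D 𝒟, ?_, ?_, Finset.card_insert_of_notMem hDm⟩
      · intro E hE
        rcases Finset.mem_insert.1 hE with rfl | hE
        · exact ⟨hD, hDX⟩
        · exact h1 E hE
      · intro E hE E' hE' hne
        rcases Finset.mem_insert.1 hE with h5 | h5
        · rcases Finset.mem_insert.1 hE' with h6 | h6
          · exact absurd (h5.trans h6.symm) hne
          · rw [h5]; exact hno E' h6
        · rcases Finset.mem_insert.1 hE' with h6 | h6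
          · rw [h6, mul_comm]; exact hno E h5
          · exact h2 E h5 E' h6 hne
    have := Nat.le_findGreatest (hb _ hP') hP'
    omega
  obtain ⟨D', hD', hsq⟩ := hex
  refine ⟨D', ⟨hD', hsq⟩, ?_⟩
  rintro E ⟨hE, hEsq⟩
  by_contra hne
  apply h2 E hE D' hD' hne
  obtain ⟨s, hs⟩ := hsq
  obtain ⟨t, ht⟩ := hEsq
  refine ⟨s * t / D, ?_⟩
  have hD0 := hD
  field_simp
  linear_combination (D * E) * hs + (s * s) * ht

/-- the number of the twists is at least `c X` -/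
theorem le_card (hlow : S_LOW) (F : Type) [Field F] [NumberField F] :
    ∃ c : ℝ, 0 < c ∧ ∀ (X : ℝ) (𝒟 : Finset F), 1 ≤ X → AllTw F X 𝒟 → c * X ≤ (𝒟.card : ℝ) := by
  obtain ⟨c, hc, h⟩ := hlow F (card_le F)
  refine ⟨c, hc, fun X 𝒟 hX hA => ?_⟩
  obtain ⟨𝒟', h1, h2, h3⟩ := h X hX
  refine h3.trans ?_
  have hch : ∀ D ∈ 𝒟', ∃ D' ∈ 𝒟, IsSquare (D * D') := by
    intro D hD
    obtain ⟨E, hE, -⟩ := hA.2 D (h1 D hD).1 (h1 D hD).2
    exact ⟨E, hE⟩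
  choose! f hf1 hf2 using hch
  have := Finset.card_le_card_of_injOn f (fun D hD => hf1 D hD) (by
    intro D hD D' hD' he
    by_contra hne
    apply h2 D hD D' hD' hne
    obtain ⟨s, hs⟩ := hf2 D hD
    obtain ⟨t, ht⟩ := hf2 D' hD'
    have hE0 := (hA.1 _ (hf1 D hD)).1
    rw [← he] at ht
    refine ⟨s * t / f D, ?_⟩
    field_simp
    linear_combination (D' * f D) * hs + (s * s) * ht)
  exact_mod_cast this

/-- **the moments**: averages over all quadratic twists -/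
theorem averages (hlow : S_LOW) (F ι : Type) [Field F] [NumberField F] [Fintype ι] (a b : ι → F)
    (hnr : ∀ i, ∀ x : F, x ^ 3 + a i * x + b i ≠ 0) (k n : ℕ) :
    ∃ C : ℝ, 0 < C ∧ ∀ X : ℝ, 1 ≤ X → (∃ 𝒟 : Finset F, AllTw F X 𝒟) ∧
    ∀ 𝒟 : Finset F, AllTw F X 𝒟 → 𝒟.Nonempty ∧
    (∀ D ∈ 𝒟, ∀ i, Finite (Sel2 (tw (a i) (b i) D)) ∧ Finite (T2 (Sha (tw (a i) (b i) D)) n)) ∧
    ((∑ D ∈ 𝒟, ∏ i, (Nat.card (Sel2 (tw (a i) (b i) D)) : ℝ) ^ k) / 𝒟.card) ≤ C ∧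
    ((∑ D ∈ 𝒟, ∏ i, ((2 : ℝ) ^ Module.finrank ℤ (tw (a i) (b i) D).toAffine.Point *
      (Nat.card (T2 (Sha (tw (a i) (b i) D)) n) : ℝ)) ^ k) / 𝒟.card) ≤ C := by
  obtain ⟨C, hC, h⟩ := moments F ι a b hnr k n
  obtain ⟨c, hc, hl⟩ := le_card hlow F
  refine ⟨C / c, div_pos hC hc, fun X hX => ⟨exists_allTw F X hX, fun 𝒟 hA => ?_⟩⟩
  have hX0 : (0 : ℝ) < X := by linarith
  have h1 := hl X 𝒟 hX hA
  have hpos : (0 : ℝ) < (𝒟.card : ℝ) := lt_of_lt_of_le (mul_pos hc hX0) h1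
  obtain ⟨h2, h3, h4⟩ := h X 𝒟 hX hA.1 hA.pw
  have key : C * X ≤ C / c * (𝒟.card : ℝ) := by
    rw [div_mul_eq_mul_div, le_div_iff₀ hc]
    calc C * X * c = C * (c * X) := by ring
      _ ≤ C * (𝒟.card : ℝ) := mul_le_mul_of_nonneg_left h1 hC.le
  refine ⟨Finset.card_pos.1 (by exact_mod_cast hpos), h2, ?_, ?_⟩
  · rw [div_le_iff₀ hpos]
    refine le_trans (le_of_eq ?_) (h3.trans key)
    push_cast
    rfl
  · rw [div_le_iff₀ hpos]
    refine le_trans (le_of_eq ?_) (h4.trans key)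
    push_cast
    rfl

end Pool.Agent.H575.ES
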