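import Pool.Agent.H575.ES.CntA
import Pool.Agent.H575.ES.AllN
import Pool.Agent.H685.ES.Lcg
import Pool.Agent.H539.ES.KfxDa3
import Pool.Agent.H428.ES.Rep

/-!
# Project ES (helper575), job CNT: the theorem
-/

set_option autoImplicit false
set_option linter.all false

open scoped Classical

namespace Pool.Agent.H575.ES

open Polynomial NumberField IsDedekindDomain
open Pool.Agent.Q161.ESN (Ov SqF Gd1 Dat VB)
open Pool.Agent.Q193.ESG (U1)
open Pool.Agent.Q161.ESF (selC cobT Sel2)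

/-- clearing the denominators -/
theorem exists_den {F ι : Type} [Field F] [NumberField F] [Fintype ι] (a b : ι → F) :
    ∃ m : ℕ, m ≠ 0 ∧ ∀ i, ∃ a' b' : 𝓞 F, (a' : F) = a i * (m : F) ^ 4 ∧ (b' : F) = b i * (m : F) ^ 6 := by
  have h1 : ∀ x : F, ∃ n : ℕ, n ≠ 0 ∧ IsIntegral ℤ ((n : F) * x) := by
    intro x
    obtain ⟨⟨c, hc⟩, h⟩ := IsLocalization.exists_integer_multiple (M := Algebra.algebraMapSubmonoid (𝓞 F) (nonZeroDivisors ℤ)) (S := F) x
    obtain ⟨k, hk, rfl⟩ := hc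
    obtain ⟨y, hy⟩ := h
    have hk0 : k ≠ 0 := nonZeroDivisors.ne_zero hk
    refine ⟨k.natAbs, Int.natAbs_ne_zero.2 hk0, ?_⟩
    have h2 : IsIntegral ℤ ((k : F) * x) := by
      have h3 : (k : F) * x = (y : F) := by
        rw [Algebra.smul_def] at hy
        rw [show (y : F) = algebraMap (𝓞 F) F y from rfl, hy]
        simp
      rw [h3]
      exact y.2
    rcases Int.natAbs_eq k with h4 | h4
    · have : ((k.natAbs : ℕ) : F) = (k : F) := by
        conv_rhs => rw [h4]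
        simp
      rw [this]; exact h2
    · have : ((k.natAbs : ℕ) : F) * x = -((k : F) * x) := by
        conv_rhs => rw [h4]
        simp
      rw [this]; exact h2.neg
  choose n hn hi using h1
  refine ⟨∏ i, (n (a i) * n (b i)), Finset.prod_ne_zero_iff.2 fun i _ => mul_ne_zero (hn _) (hn _), fun i => ?_⟩
  have hdv : n (a i) * n (b i) ∣ ∏ i, (n (a i) * n (b i)) := Finset.dvd_prod_of_mem _ (Finset.mem_univ i)
  obtain ⟨q, hq⟩ := hdv
  have iq : ∀ k : ℕ, IsIntegral ℤ ((k : ℕ) : F) := fun k => isIntegral_natCast k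
  have ea : a i * ((∏ i, (n (a i) * n (b i)) : ℕ) : F) ^ 4 =
      ((n (a i) : F) * a i) * ((n (a i)) ^ 3 * ((n (b i)) * q) ^ 4 : ℕ) := by
    rw [hq]; push_cast; ring
  have eb : b i * ((∏ i, (n (a i) * n (b i)) : ℕ) : F) ^ 6 =
      ((n (b i) : F) * b i) * ((n (b i)) ^ 5 * ((n (a i)) * q) ^ 6 : ℕ) := by
    rw [hq]; push_cast; ring
  refine ⟨⟨a i * ((∏ i, (n (a i) * n (b i)) : ℕ) : F) ^ 4, ?_⟩, ⟨b i * ((∏ i, (n (a i) * n (b i)) : ℕ) : F) ^ 6, ?_⟩, rfl, rfl⟩
  · show IsIntegral ℤ _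
    rw [ea]
    exact (hi _).mul (iq _)
  · show IsIntegral ℤ _
    rw [eb]
    exact (hi _).mul (iq _)

/-- the count for finite sets of classes -/
theorem cnt_fin (F ι : Type) [Field F] [NumberField F] [Fintype ι] (a b : ι → F)
    (hnr : ∀ i, ∀ x : F, x ^ 3 + a i * x + b i ≠ 0) :
    ∃ C : ℝ, 0 < C ∧ ∀ (X : ℝ) (𝒟 : Finset F), 1 ≤ X → (∀ D ∈ 𝒟, D ≠ 0 ∧ (cond D : ℝ) ≤ X) →
    (∀ D ∈ 𝒟, ∀ D' ∈ 𝒟, D ≠ D' → ¬ IsSquare (D * D')) →
    ∀ T : (i : ι) → (D : F) → Finset (Sel2 (tw (a i) (b i) D)),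
    ((∑ D ∈ 𝒟, ∏ i, (T i D).card : ℕ) : ℝ) ≤ C * X := by
  obtain ⟨m, hm, hab⟩ := exists_den a b
  choose a' b' ha' hb' using hab
  have hmF : (m : F) ≠ 0 := by exact_mod_cast hm
  have hnr' : ∀ i, ∀ x : F, x ^ 3 + (a' i : F) * x + (b' i : F) ≠ 0 := by
    intro i x hx
    rw [ha', hb'] at hx
    apply hnr i (x / (m : F) ^ 2)
    have e : (x / (m : F) ^ 2) ^ 3 + a i * (x / (m : F) ^ 2) + b i =
        (x ^ 3 + a i * (m : F) ^ 4 * x + b i * (m : F) ^ 6) / (m : F) ^ 6 := by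
      field_simp
    rw [e, hx, zero_div]
  have hirr' := fun i => irr_of (hnr' i)
  have hirr := fun i => irr_of (hnr i)
  choose L i1 i2 i3 th hth using fun i => exists_L F (a' i) (b' i) (hirr' i)
  letI := i1
  letI := i2
  letI := i3
  obtain ⟨K, k1, k2, k3, k4, hK⟩ := Pool.Agent.H539.ES.kfx F ι L
  letI := k1
  letI := k2
  letI := k3
  haveI := k4
  have hda := fun i => Pool.Agent.H539.ES.da3 F (L i) K (a' i : F) (b' i : F) (th i) (hirr' i) (hth i).1 (hth i).2 (hK i)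
  obtain ⟨V, v1, v2, v3, cd, hV⟩ := Pool.Agent.Q65.ESN.vg ι F K L
  letI := v1
  letI := v2
  letI := v3
  have hsemi := Pool.Agent.Q190.ESN.sem3 ι F K L (fun i => (hda i).2) V cd hV
  choose B1 hB1 hL using fun i => Pool.Agent.H685.ES.lcg F (L i) K (a' i) (b' i) (th i) (hirr' i) (hth i).1 (hth i).2 (hK i)
  obtain ⟨B2, C2, hB2, hC2, hR⟩ := Pool.Agent.H428.ES.rep F
  set B : ℕ := B2 * ∏ i, B1 i with hB
  have hB0 : B ≠ 0 := mul_ne_zero hB2 (Finset.prod_ne_zero_iff.2 fun i _ => hB1 i)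
  have hB1B : ∀ i, B1 i ∣ B := fun i => (Finset.dvd_prod_of_mem _ (Finset.mem_univ i)).mul_left _
  have hB2B : B2 ∣ B := Dvd.intro _ rfl
  obtain ⟨C0, hC0, hcnt⟩ := t_cntg ι F K L th (fun i => (hda i).1) V cd hV hsemi B hB0
  refine ⟨C0 * max C2 1, mul_pos hC0 (lt_max_of_lt_right zero_lt_one), ?_⟩
  intro X 𝒟 hX h𝒟 hsq T
  choose! D0 c hc0 hD0 hSq hN using hR
  have inj : ∀ D ∈ 𝒟, ∀ D' ∈ 𝒟, D0 D = D0 D' → D = D' := by
    intro D hD D' hD' h
    by_contra hne
    apply hsq D hD D' hD' hne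
    have h1 := hD0 D (h𝒟 D hD).1
    have h2 := hD0 D' (h𝒟 D' hD').1
    rw [h] at h1
    have c1 := hc0 D (h𝒟 D hD).1
    have c2 := hc0 D' (h𝒟 D' hD').1
    refine ⟨(D0 D' : F) / (c D * c D'), ?_⟩
    have e1 : D = (D0 D' : F) / c D ^ 2 := by
      rw [h1]; field_simp
    have e2 : D' = (D0 D' : F) / c D' ^ 2 := by
      rw [h2]; field_simp
    have e3 : D * D' = (D0 D' : F) / c D ^ 2 * ((D0 D' : F) / c D' ^ 2) := by
      rw [← e1, ← e2]
    rw [e3]
    field_simp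
  -- the sets in `L i`
  have hset : ∀ (i : ι) (D : F), ∃ S : Finset (L i), D ∈ 𝒟 → S.card = (T i D).card ∧
      (∀ δ ∈ S, δ ≠ 0 ∧ Gd1 F K (th i) B (D0 D) δ) ∧
      ∀ δ ∈ S, ∀ δ' ∈ S, δ ≠ δ' → ¬ IsSquare (δ * δ') := by
    intro i D
    by_cases hD : D ∈ 𝒟
    · set θ : L i := (th i : L i) / algebraMap F (L i) (m : F) ^ 2 with hθ
      have hmL : algebraMap F (L i) (m : F) ≠ 0 := (_root_.map_ne_zero _).2 hmF
      have hroot : θ ^ 3 + algebraMap F (L i) (a i) * θ + algebraMap F (L i) (b i) = 0 := by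
        have h1 := (hth i).1
        rw [ha', hb'] at h1
        simp only [map_mul, map_pow] at h1
        have e : θ ^ 3 + algebraMap F (L i) (a i) * θ + algebraMap F (L i) (b i) =
            ((th i : L i) ^ 3 + algebraMap F (L i) (a i) * algebraMap F (L i) (m : F) ^ 4 * (th i : L i) +
              algebraMap F (L i) (b i) * algebraMap F (L i) (m : F) ^ 6) / algebraMap F (L i) (m : F) ^ 6 := by
          rw [hθ]; field_simp
        rw [e, h1, zero_div]
      obtain ⟨S, hS1, hS2, hS3⟩ := exists_set (hirr i) hroot (hth i).2 (h𝒟 D hD).1 (T i D)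
      refine ⟨S, fun _ => ⟨hS1, fun δ hδ => ⟨(hS2 δ hδ).1, ?_⟩, hS3⟩⟩
      apply hL i B (hB1B i) hB0 (D0 D) δ (hSq D (h𝒟 D hD).1 B hB2B) (hS2 δ hδ).1
      intro v hv
      have h2 := ((hS2 δ hδ).2 v hv).scale hmF (hc0 D (h𝒟 D hD).1)
      have e : θ * algebraMap F (L i) (m : F) ^ 2 = (th i : L i) := by
        rw [hθ]; field_simp
      rw [e, ← ha', ← hb', ← hD0 D (h𝒟 D hD).1] at h2
      exact h2
    · exact ⟨∅, fun h => absurd h hD⟩
  choose S hS using hset
  set Fs : (i : ι) → 𝓞 F → Finset (L i) := fun i D' =>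
    if h : ∃ D ∈ 𝒟, D0 D = D' then S i h.choose else ∅ with hFs
  have hFsD : ∀ (i : ι), ∀ D ∈ 𝒟, Fs i (D0 D) = S i D := by
    intro i D hD
    have h : ∃ D1 ∈ 𝒟, D0 D1 = D0 D := ⟨D, hD, rfl⟩
    have e : h.choose = D := inj _ h.choose_spec.1 D hD h.choose_spec.2
    rw [hFs]
    simp only [dif_pos h, e]
  have hres := hcnt Fs (by
      intro i D' δ hδ
      rw [hFs] at hδ
      dsimp only at hδ
      split_ifs at hδ with h
      · have h1 := (hS i _ h.choose_spec.1).2.1 δ hδ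
        rw [h.choose_spec.2] at h1
        exact h1
      · simp at hδ) (by
      intro i D' δ hδ δ' hδ' hne
      rw [hFs] at hδ hδ'
      dsimp only at hδ hδ'
      split_ifs at hδ hδ' with h
      · exact (hS i _ h.choose_spec.1).2.2 δ hδ δ' hδ' hne
      · simp at hδ) (max C2 1 * X) (𝒟.image D0) (by
      calc (1 : ℝ) = 1 * 1 := by ring
        _ ≤ max C2 1 * X := mul_le_mul (le_max_right _ _) hX zero_le_one (le_trans zero_le_one (le_max_right _ _))) (by
      intro D' hD'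
      obtain ⟨D, hD, rfl⟩ := Finset.mem_image.1 hD'
      refine ⟨hSq D (h𝒟 D hD).1 B hB2B, (hN D (h𝒟 D hD).1).trans ?_⟩
      have h1 := (h𝒟 D hD).2
      calc C2 * (cond D : ℝ) ≤ max C2 1 * (cond D : ℝ) :=
            mul_le_mul_of_nonneg_right (le_max_left _ _) (Nat.cast_nonneg _)
        _ ≤ max C2 1 * X := mul_le_mul_of_nonneg_left h1 (le_trans zero_le_one (le_max_right _ _))) (by
      intro D1 hD1 D2 hD2 hne hsq'
      obtain ⟨D, hD, rfl⟩ := Finset.mem_image.1 hD1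
      obtain ⟨D', hD', rfl⟩ := Finset.mem_image.1 hD2
      apply hsq D hD D' hD' (fun h => hne (by rw [h]))
      obtain ⟨s, hs⟩ := hsq'
      rw [hD0 D (h𝒟 D hD).1, hD0 D' (h𝒟 D' hD').1] at hs
      have c1 := hc0 D (h𝒟 D hD).1
      have c2 := hc0 D' (h𝒟 D' hD').1
      refine ⟨s / (c D * c D'), ?_⟩
      have e : D * D' = (D * c D ^ 2 * (D' * c D' ^ 2)) / (c D * c D') ^ 2 := by field_simp
      rw [e, hs]
      field_simp)
  rw [Finset.sum_image (fun D hD D' hD' h => inj D hD D' hD' h)] at hres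
  have e : ∑ D ∈ 𝒟, ∏ i, (Fs i (D0 D)).card = ∑ D ∈ 𝒟, ∏ i, (T i D).card := by
    refine Finset.sum_congr rfl fun D hD => Finset.prod_congr rfl fun i _ => ?_
    rw [hFsD i D hD, (hS i D hD).1]
  rw [e] at hres
  rw [mul_assoc]
  exact hres

/-- **the theorem** -/
theorem cnt : S_CNT := by
  intro F ι _ _ _ a b hnr
  obtain ⟨C, hC, h⟩ := cnt_fin F ι a b hnr
  refine ⟨C, hC, fun X 𝒟 hX h𝒟 hsq => ?_⟩
  have hfin : ∀ D ∈ 𝒟, ∀ i, Finite (Sel2 (tw (a i) (b i) D)) := by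
    intro D hD i
    by_contra hinf
    rw [not_finite_iff_infinite] at hinf
    obtain ⟨n, hn⟩ := exists_nat_gt (C * X)
    obtain ⟨T0, hT0⟩ := Infinite.exists_subset_card_eq (Sel2 (tw (a i) (b i) D)) n
    have h1 := h X {D} hX (fun D' hD' => by rw [Finset.mem_singleton.1 hD']; exact h𝒟 D hD)
      (fun D1 h1 D2 h2 hne => absurd ((Finset.mem_singleton.1 h1).trans (Finset.mem_singleton.1 h2).symm) hne)
      (fun j D' => if hj : j = i ∧ D' = D then by rw [hj.1, hj.2]; exact T0 else {0})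
    rw [Finset.sum_singleton] at h1
    have h2 : n ≤ ∏ j, ((if hj : j = i ∧ D = D then by rw [hj.1, hj.2]; exact T0 else {0} :
        Finset (Sel2 (tw (a j) (b j) D)))).card := by
      refine le_trans ?_ (Finset.single_le_prod' (f := fun j => ((if hj : j = i ∧ D = D then by rw [hj.1, hj.2]; exact T0 else {0} :
        Finset (Sel2 (tw (a j) (b j) D)))).card) (fun j _ => ?_) (Finset.mem_univ i))
      · simp [hT0]
      · by_cases hj : j = i ∧ D = D
        · obtain ⟨rfl, -⟩ := hj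
          simp only [and_self, dif_pos]
          show 1 ≤ T0.card
          rw [hT0]
          by_contra hc
          have : n = 0 := by omega
          subst this
          have : (0 : ℝ) < C * X := mul_pos hC (lt_of_lt_of_le zero_lt_one hX)
          rw [Nat.cast_zero] at hn
          exact absurd hn (not_lt.2 this.le)
        · rw [dif_neg hj, Finset.card_singleton]
    have h3 : (n : ℝ) ≤ C * X := le_trans (by exact_mod_cast h2) h1
    exact absurd hn (not_lt.2 h3)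
  refine ⟨hfin, ?_⟩
  have h1 := h X 𝒟 hX h𝒟 hsq (fun i D => if hf : Finite (Sel2 (tw (a i) (b i) D)) then
    (letI := Fintype.ofFinite (Sel2 (tw (a i) (b i) D)); Finset.univ) else ∅)
  refine le_trans (le_of_eq ?_) h1
  congr 1
  refine Finset.sum_congr rfl fun D hD => Finset.prod_congr rfl fun i _ => ?_
  rw [dif_pos (hfin D hD i)]
  haveI := hfin D hD i
  letI := Fintype.ofFinite (Sel2 (tw (a i) (b i) D))
  rw [Nat.card_eq_fintype_card]
  simp [Finset.card_univ]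

end Pool.Agent.H575.ES
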