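import Pool.Agent.H575.ES.Kum

/-!
# Project ES (helper575), job CNT, part A: scaling, the cubic field, representatives
-/

set_option autoImplicit false
set_option linter.all false

open scoped Classical

namespace Pool.Agent.H575.ES

open Polynomial NumberField IsDedekindDomain
open Pool.Agent.Q161.ESN (Ov)
open Pool.Agent.Q193.ESG (U1)
open Pool.Agent.Q161.ESF (selC cobT Sel2)

/-- change of the model -/
theorem App.scale {F L : Type} [Field F] [NumberField F] [Field L] [NumberField L] [Algebra F L] {a b : F}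
    {θ : L} {D : F} {δ : L} {v : HeightOneSpectrum (𝓞 F)} (h : App a b θ D δ v) {m c : F} (hm : m ≠ 0)
    (hc : c ≠ 0) : App (a * m ^ 4) (b * m ^ 6) (θ * algebraMap F L m ^ 2) (D * c ^ 2) δ v := by
  obtain ⟨x, y, hy, h1, h2⟩ := h
  have hmc : m * c ≠ 0 := mul_ne_zero hm hc
  refine ⟨(m * c) ^ 2 * x, (m * c) ^ 3 * y, mul_ne_zero (pow_ne_zero 3 hmc) hy, ?_, ?_⟩
  · have e : (((m * c) ^ 2 * x) ^ 3 + a * m ^ 4 * (D * c ^ 2) ^ 2 * ((m * c) ^ 2 * x) +
        b * m ^ 6 * (D * c ^ 2) ^ 3) / ((m * c) ^ 3 * y) ^ 2 =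
        (x ^ 3 + a * D ^ 2 * x + b * D ^ 3) / y ^ 2 := by
      field_simp
    rw [e]
    exact h1
  · intro u hu
    obtain ⟨η, hη, h3⟩ := h2 u hu
    have hmc' : algebraMap F L (m * c) ≠ 0 := (_root_.map_ne_zero _).2 hmc
    refine ⟨algebraMap F L (m * c) * η, mul_ne_zero hmc' hη, ?_⟩
    have e : δ * (algebraMap F L ((m * c) ^ 2 * x) - algebraMap F L (D * c ^ 2) * (θ * algebraMap F L m ^ 2)) /
        (algebraMap F L (m * c) * η) ^ 2 = δ * (algebraMap F L x - algebraMap F L D * θ) / η ^ 2 := by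
      have e1 : algebraMap F L ((m * c) ^ 2 * x) - algebraMap F L (D * c ^ 2) * (θ * algebraMap F L m ^ 2) =
          algebraMap F L (m * c) ^ 2 * (algebraMap F L x - algebraMap F L D * θ) := by
        simp only [map_mul, map_pow]
        ring
      rw [e1]
      field_simp
    rw [e]
    exact h3

/-- the cubic field -/
theorem exists_L (F : Type) [Field F] [NumberField F] (a b : 𝓞 F)
    (hirr : Irreducible (X ^ 3 + C (a : F) * X + C (b : F) : F[X])) :
    ∃ (L : Type) (_ : Field L) (_ : NumberField L) (_ : Algebra F L) (th : 𝓞 L),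
      (th : L) ^ 3 + algebraMap F L a * (th : L) + algebraMap F L b = 0 ∧ Module.finrank F L = 3 := by
  set p : F[X] := X ^ 3 + C (a : F) * X + C (b : F) with hp
  haveI : Fact (Irreducible p) := ⟨hirr⟩
  have hp0 : p ≠ 0 := hirr.ne_zero
  have hmon : p.Monic := by rw [hp]; monicity!
  have hnat : p.natDegree = 3 := by rw [hp]; compute_degree!
  haveI : CharZero (AdjoinRoot p) := charZero_of_injective_algebraMap (algebraMap F (AdjoinRoot p)).injective
  haveI : FiniteDimensional F (AdjoinRoot p) := (AdjoinRoot.powerBasis hp0).finite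
  haveI : FiniteDimensional ℚ (AdjoinRoot p) := FiniteDimensional.trans ℚ F (AdjoinRoot p)
  haveI : NumberField (AdjoinRoot p) := { to_charZero := inferInstance, to_finiteDimensional := inferInstance }
  have hr : (AdjoinRoot.root p) ^ 3 + algebraMap F (AdjoinRoot p) a * AdjoinRoot.root p +
      algebraMap F (AdjoinRoot p) b = 0 := by
    have h1 : ∀ q : F[X], q = X ^ 3 + C (a : F) * X + C (b : F) → aeval (AdjoinRoot.root p) q =
        (AdjoinRoot.root p) ^ 3 + algebraMap F (AdjoinRoot p) a * AdjoinRoot.root p +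
      algebraMap F (AdjoinRoot p) b := by
      rintro q rfl
      rw [map_add, map_add, map_mul, map_pow, aeval_X, aeval_C, aeval_C]
    rw [← h1 p hp, AdjoinRoot.aeval_eq, AdjoinRoot.mk_self]
  have hint : IsIntegral ℤ (AdjoinRoot.root p) := by
    have h1 : IsIntegral (𝓞 F) (AdjoinRoot.root p) := by
      refine ⟨X ^ 3 + C a * X + C b, by monicity!, ?_⟩
      rw [← aeval_def, map_add, map_add, map_mul, map_pow, aeval_X, aeval_C, aeval_C]
      exact hr
    exact isIntegral_trans (R := ℤ) (A := 𝓞 F) _ h1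
  refine ⟨AdjoinRoot p, inferInstance, inferInstance, inferInstance, ⟨AdjoinRoot.root p, hint⟩, hr, ?_⟩
  rw [(AdjoinRoot.powerBasis hp0).finrank, AdjoinRoot.powerBasis_dim, hnat]

theorem irr_of {F : Type} [Field F] {a b : F} (h : ∀ x : F, x ^ 3 + a * x + b ≠ 0) :
    Irreducible (X ^ 3 + C a * X + C b : F[X]) := by
  have hmon : (X ^ 3 + C a * X + C b : F[X]).Monic := by monicity!
  have hnat : (X ^ 3 + C a * X + C b : F[X]).natDegree = 3 := by compute_degree!
  rw [hmon.irreducible_iff_roots_eq_zero_of_degree_le_three (by rw [hnat]; norm_num) (by rw [hnat])]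
  rw [Multiset.eq_zero_iff_forall_notMem]
  intro x hx
  rw [mem_roots hmon.ne_zero, IsRoot.def] at hx
  apply h x
  simpa using hx

/-- the representatives of the Selmer classes -/
theorem exists_set {F L : Type} [Field F] [NumberField F] [Field L] [NumberField L] [Algebra F L]
    {a b : F} {θ : L} (hirr : Irreducible (X ^ 3 + C a * X + C b : F[X]))
    (hroot : θ ^ 3 + algebraMap F L a * θ + algebraMap F L b = 0) (hdeg : Module.finrank F L = 3)
    {D : F} (hD : D ≠ 0) (T : Finset (Sel2 (tw a b D))) :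
    ∃ S : Finset L, S.card = T.card ∧
      (∀ δ ∈ S, δ ≠ 0 ∧ ∀ v : HeightOneSpectrum (𝓞 F), (2 : 𝓞 F) ∉ v.asIdeal → App a b θ D δ v) ∧
      ∀ δ ∈ S, ∀ δ' ∈ S, δ ≠ δ' → ¬ IsSquare (δ * δ') := by
  obtain ⟨κ, hκ1, hκ2⟩ := kum F L a b θ hirr hroot hdeg D hD
  have key : ∀ q q' : Sel2 (tw a b D), IsSquare (κ (Quotient.out q) * κ (Quotient.out q')) → q = q' := by
    intro q q' h
    have h1 := hκ2 _ _ h
    have e : ∀ r : Sel2 (tw a b D), (QuotientAddGroup.mk (Quotient.out r) : Sel2 (tw a b D)) = r :=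
      fun r => Quotient.out_eq r
    rw [← e q, ← e q']
    symm
    rw [QuotientAddGroup.eq]
    show (-(Quotient.out q') + Quotient.out q : selC (tw a b D)) ∈ (cobT (tw a b D)).addSubgroupOf (selC (tw a b D))
    rw [AddSubgroup.mem_addSubgroupOf]
    have e2 : ((-(Quotient.out q') + Quotient.out q : selC (tw a b D)) : _ → _) =
        (Quotient.out q).1 - (Quotient.out q').1 := by
      show -(Quotient.out q').1 + (Quotient.out q).1 = (Quotient.out q).1 - (Quotient.out q').1
      abel
    rw [e2]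
    exact h1
  have hinj : Function.Injective (fun q : Sel2 (tw a b D) => κ (Quotient.out q)) := by
    intro q q' h
    apply key
    have h' : κ (Quotient.out q) = κ (Quotient.out q') := h
    rw [h']
    exact ⟨_, rfl⟩
  refine ⟨T.image (fun q => κ (Quotient.out q)), Finset.card_image_of_injective _ hinj, ?_, ?_⟩
  · intro δ hδ
    obtain ⟨q, -, rfl⟩ := Finset.mem_image.1 hδ
    exact hκ1 _
  · intro δ hδ δ' hδ' hne hsq
    obtain ⟨q, -, rfl⟩ := Finset.mem_image.1 hδ
    obtain ⟨q', -, rfl⟩ := Finset.mem_image.1 hδ'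
    apply hne
    show κ (Quotient.out q) = κ (Quotient.out q')
    rw [key q q' hsq]

end Pool.Agent.H575.ES
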