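import Pool.Agent.H575.ES.Cnt
import Pool.Agent.H97.ES.Exa

/-!
# Project ES (helper575): the moments of the ranks, the Selmer groups and the Tate-Shafarevich groups
-/

set_option autoImplicit false
set_option linter.all false

open scoped Classical

namespace Pool.Agent.H575.ES

open Polynomial NumberField IsDedekindDomain
open Pool.Agent.Q161.ESF (Sel2 Sha T2)

/-- `2^rank * #Ш[2^n] ≤ #Sel_2 ^ max n 1` -/
theorem rank_sha_le {F : Type} [Field F] [NumberField F] {A B : F} (h : 4 * A ^ 3 + 27 * B ^ 2 ≠ 0)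
    (hf : Finite (Sel2 (⟨0, 0, 0, A, B⟩ : WeierstrassCurve F))) (n : ℕ) :
    Finite (T2 (Sha (⟨0, 0, 0, A, B⟩ : WeierstrassCurve F)) n) ∧
    2 ^ Module.finrank ℤ (⟨0, 0, 0, A, B⟩ : WeierstrassCurve F).toAffine.Point *
      Nat.card (T2 (Sha (⟨0, 0, 0, A, B⟩ : WeierstrassCurve F)) n) ≤
      Nat.card (Sel2 (⟨0, 0, 0, A, B⟩ : WeierstrassCurve F)) ^ (n + 1) := by
  obtain ⟨h1, h2⟩ := Pool.Agent.H97.ES.exa F A B h hf
  obtain ⟨h3, h4⟩ := Pool.Agent.Q161.ESF.card_T2 h1 n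
  refine ⟨h3, ?_⟩
  haveI := h1
  have h5 : 0 < Nat.card (T2 (Sha (⟨0, 0, 0, A, B⟩ : WeierstrassCurve F)) 1) := Nat.card_pos
  set s := Nat.card (T2 (Sha (⟨0, 0, 0, A, B⟩ : WeierstrassCurve F)) 1) with hs
  set R := 2 ^ Module.finrank ℤ (⟨0, 0, 0, A, B⟩ : WeierstrassCurve F).toAffine.Point with hR
  have hR0 : 0 < R := by rw [hR]; positivity
  calc R * Nat.card (T2 (Sha (⟨0, 0, 0, A, B⟩ : WeierstrassCurve F)) n) ≤ R * s ^ n :=
        Nat.mul_le_mul_left _ h4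
    _ ≤ R ^ (n + 1) * s ^ (n + 1) := Nat.mul_le_mul (by
        calc R = R ^ 1 := (pow_one _).symm
          _ ≤ R ^ (n + 1) := Nat.pow_le_pow_right hR0 (by omega)) (Nat.pow_le_pow_right h5 (by omega))
    _ = (R * s) ^ (n + 1) := (mul_pow _ _ _).symm
    _ ≤ _ := Nat.pow_le_pow_left h2 _

theorem disc_of {F : Type} [Field F] [CharZero F] {a b : F} (h : ∀ x : F, x ^ 3 + a * x + b ≠ 0) :
    4 * a ^ 3 + 27 * b ^ 2 ≠ 0 := by
  intro h0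
  by_cases ha : a = 0
  · have hb : b = 0 := by
      have : (27 : F) * b ^ 2 = 0 := by simpa [ha] using h0
      have h27 : (27 : F) ≠ 0 := by norm_num
      have := (mul_eq_zero.1 this).resolve_left h27
      exact pow_eq_zero_iff (two_ne_zero) |>.1 this
    exact h 0 (by simp [hb])
  · -- the double root `-3b/(2a)`
    apply h (-3 * b / (2 * a))
    field_simp
    linear_combination (-b) * h0

/-- the moments of the 2-Selmer groups and of `2^rank * #Ш[2^n]` -/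
theorem moments (F ι : Type) [Field F] [NumberField F] [Fintype ι] (a b : ι → F)
    (hnr : ∀ i, ∀ x : F, x ^ 3 + a i * x + b i ≠ 0) (k n : ℕ) :
    ∃ C : ℝ, 0 < C ∧ ∀ (X : ℝ) (𝒟 : Finset F), 1 ≤ X → (∀ D ∈ 𝒟, D ≠ 0 ∧ (cond D : ℝ) ≤ X) →
    (∀ D ∈ 𝒟, ∀ D' ∈ 𝒟, D ≠ D' → ¬ IsSquare (D * D')) →
    (∀ D ∈ 𝒟, ∀ i, Finite (Sel2 (tw (a i) (b i) D)) ∧ Finite (T2 (Sha (tw (a i) (b i) D)) n)) ∧
    ((∑ D ∈ 𝒟, ∏ i, Nat.card (Sel2 (tw (a i) (b i) D)) ^ k : ℕ) : ℝ) ≤ C * X ∧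
    ((∑ D ∈ 𝒟, ∏ i, (2 ^ Module.finrank ℤ (tw (a i) (b i) D).toAffine.Point *
      Nat.card (T2 (Sha (tw (a i) (b i) D)) n)) ^ k : ℕ) : ℝ) ≤ C * X := by
  obtain ⟨C1, hC1, h1⟩ := cnt F (ι × Fin k) (fun p => a p.1) (fun p => b p.1) (fun p => hnr p.1)
  obtain ⟨C2, hC2, h2⟩ := cnt F (ι × Fin ((n + 1) * k)) (fun p => a p.1) (fun p => b p.1) (fun p => hnr p.1)
  obtain ⟨C3, hC3, h3⟩ := cnt F ι a b hnr
  have pw : ∀ (m : ℕ) (f : ι → ℕ), ∏ p : ι × Fin m, f p.1 = ∏ i, f i ^ m := by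
    intro m f
    rw [Fintype.prod_prod_type]
    refine Finset.prod_congr rfl fun i _ => ?_
    simp
  refine ⟨max C1 C2, lt_max_of_lt_left hC1, fun X 𝒟 hX hD hs => ?_⟩
  obtain ⟨f3, -⟩ := h3 X 𝒟 hX hD hs
  obtain ⟨-, g1⟩ := h1 X 𝒟 hX hD hs
  obtain ⟨-, g2⟩ := h2 X 𝒟 hX hD hs
  have hX0 : (0 : ℝ) ≤ X := by linarith
  have key : ∀ D ∈ 𝒟, ∀ i, Finite (T2 (Sha (tw (a i) (b i) D)) n) ∧
      2 ^ Module.finrank ℤ (tw (a i) (b i) D).toAffine.Point * Nat.card (T2 (Sha (tw (a i) (b i) D)) n) ≤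
        Nat.card (Sel2 (tw (a i) (b i) D)) ^ (n + 1) := by
    intro D hDm i
    have hd : 4 * (a i * D ^ 2) ^ 3 + 27 * (b i * D ^ 3) ^ 2 ≠ 0 := by
      have e : 4 * (a i * D ^ 2) ^ 3 + 27 * (b i * D ^ 3) ^ 2 = (4 * a i ^ 3 + 27 * b i ^ 2) * D ^ 6 := by ring
      rw [e]
      exact mul_ne_zero (disc_of (hnr i)) (pow_ne_zero _ (hD D hDm).1)
    exact rank_sha_le hd (f3 D hDm i) n
  refine ⟨fun D hDm i => ⟨f3 D hDm i, (key D hDm i).1⟩, ?_, ?_⟩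
  · have e : ∑ D ∈ 𝒟, ∏ i, Nat.card (Sel2 (tw (a i) (b i) D)) ^ k =
        ∑ D ∈ 𝒟, ∏ p : ι × Fin k, Nat.card (Sel2 (tw (a p.1) (b p.1) D)) :=
      Finset.sum_congr rfl fun D _ => (pw k fun i => Nat.card (Sel2 (tw (a i) (b i) D))).symm
    rw [e]
    exact g1.trans (mul_le_mul_of_nonneg_right (le_max_left _ _) hX0)
  · have e : ∑ D ∈ 𝒟, ∏ i, (2 ^ Module.finrank ℤ (tw (a i) (b i) D).toAffine.Point *
        Nat.card (T2 (Sha (tw (a i) (b i) D)) n)) ^ k ≤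
        ∑ D ∈ 𝒟, ∏ p : ι × Fin ((n + 1) * k), Nat.card (Sel2 (tw (a p.1) (b p.1) D)) := by
      refine Finset.sum_le_sum fun D hDm => ?_
      rw [pw ((n + 1) * k) fun i => Nat.card (Sel2 (tw (a i) (b i) D))]
      refine Finset.prod_le_prod' fun i _ => ?_
      rw [pow_mul]
      exact Nat.pow_le_pow_left (key D hDm i).2 k
    exact le_trans (by exact_mod_cast e) (g2.trans (mul_le_mul_of_nonneg_right (le_max_right _ _) hX0))

end Pool.Agent.H575.ES
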