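import Pool.Agent.H575.ES.KumC

/-!
# Project ES (helper575), job KUM
-/

set_option autoImplicit false
set_option linter.all false

open scoped Classical

namespace Pool.Agent.H575.ES

open Polynomial NumberField IsDedekindDomain WeierstrassCurve WeierstrassCurve.Affine
open Pool.Agent.Q161.ESN (Ov)
open Pool.Agent.TH115.GD (IsC sC rs ak incl cub)
open Pool.Agent.Q161.ESF (selC cobT)

theorem tw_Δ {F : Type} [Field F] (a b D : F) : (tw a b D).Δ = -16 * (4 * a ^ 3 + 27 * b ^ 2) * D ^ 6 := by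
  simp only [tw, WeierstrassCurve.Δ, WeierstrassCurve.b₂, WeierstrassCurve.b₄, WeierstrassCurve.b₆,
    WeierstrassCurve.b₈]
  ring

theorem adj_top {F L : Type} [Field F] [NumberField F] [Field L] [NumberField L] [Algebra F L]
    {a b : F} {θ : L} (hirr : Irreducible (X ^ 3 + C a * X + C b : F[X]))
    (hroot : θ ^ 3 + algebraMap F L a * θ + algebraMap F L b = 0) (hdeg : Module.finrank F L = 3)
    {D : F} (hD : D ≠ 0) : IntermediateField.adjoin F {algebraMap F L D * θ} = ⊤ := by
  have hint : IsIntegral F θ := Algebra.IsIntegral.isIntegral θ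
  have hmin : minpoly F θ = X ^ 3 + C a * X + C b := by
    symm
    apply minpoly.eq_of_irreducible_of_monic hirr
    · rw [map_add, map_add, map_mul, map_pow, aeval_X, aeval_C, aeval_C]
      exact hroot
    · monicity!
  have hnat : (minpoly F θ).natDegree = 3 := by
    rw [hmin]
    compute_degree!
  have htop : IntermediateField.adjoin F {θ} = ⊤ := by
    apply IntermediateField.eq_of_le_of_finrank_eq le_top
    rw [IntermediateField.adjoin.finrank hint, hnat, IntermediateField.finrank_top', hdeg]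
  rw [eq_top_iff, ← htop, IntermediateField.adjoin_le_iff]
  intro z hz
  rw [Set.mem_singleton_iff] at hz
  subst hz
  have h1 : algebraMap F L D * z ∈ IntermediateField.adjoin F {algebraMap F L D * z} :=
    IntermediateField.subset_adjoin F _ (Set.mem_singleton _)
  have h2 : algebraMap F L D⁻¹ ∈ IntermediateField.adjoin F {algebraMap F L D * z} :=
    IntermediateField.algebraMap_mem _ _
  have h3 := (IntermediateField.adjoin F {algebraMap F L D * z}).mul_mem h2 h1
  have e : algebraMap F L D⁻¹ * (algebraMap F L D * z) = z := by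
    have hD' : algebraMap F L D ≠ 0 := (_root_.map_ne_zero _).2 hD
    rw [map_inv₀]
    field_simp
  rwa [e] at h3

theorem kum : S_KUM := by
  intro F L _ _ _ _ _ a b θ hirr hroot hdeg D hD
  obtain ⟨i0⟩ : Nonempty (L →ₐ[F] AlgebraicClosure F) := ⟨IsAlgClosed.lift⟩
  letI : Algebra L (AlgebraicClosure F) := i0.toRingHom.toAlgebra
  haveI : IsScalarTower F L (AlgebraicClosure F) := IsScalarTower.of_algebraMap_eq fun x => (i0.commutes x).symm
  have hΔ : (tw a b D).Δ ≠ 0 := by
    rw [tw_Δ]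
    refine mul_ne_zero (mul_ne_zero ?_ (Pool.Agent.Q193.ESG.disc_ne hirr)) (pow_ne_zero 6 hD)
    norm_num
  have hcub : ∀ {M : Type} [Field M] [Algebra F M] (x : M), cub (tw a b D) x =
      x ^ 3 + algebraMap F M (a * D ^ 2) * x + algebraMap F M (b * D ^ 3) := by
    intro M _ _ x
    show x ^ 3 + algebraMap F M 0 * x ^ 2 + algebraMap F M (a * D ^ 2) * x + algebraMap F M (b * D ^ 3) = _
    rw [map_zero, zero_mul, add_zero]
  have hrt : (algebraMap F L D * θ) ^ 3 + algebraMap F L (a * D ^ 2) * (algebraMap F L D * θ) +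
      algebraMap F L (b * D ^ 3) = 0 := by
    simp only [map_mul, map_pow]
    linear_combination (algebraMap F L D) ^ 3 * hroot
  have hcr : cub (tw a b D) (algebraMap L (AlgebraicClosure F) (algebraMap F L D * θ)) = 0 := by
    rw [hcub]
    have h1 := congrArg (algebraMap L (AlgebraicClosure F)) hrt
    rw [map_add, map_add, map_mul, map_pow, map_zero, ← IsScalarTower.algebraMap_apply F L,
      ← IsScalarTower.algebraMap_apply F L] at h1
    exact h1
  obtain ⟨e2, e3, hC⟩ := Pool.Agent.TH115.GD.exists_isC (W := tw a b D) (Ω := AlgebraicClosure F) rfl rfl hΔ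
    two_ne_zero hcr
  set e1 : AlgebraicClosure F := algebraMap L (AlgebraicClosure F) (algebraMap F L D * θ) with he1
  have htop := adj_top hirr hroot hdeg hD
  have hnr : ∀ x : F, cub (tw a b D) x ≠ 0 := by
    intro x hx
    rw [hcub] at hx
    apply Pool.Agent.Q193.ESG.no_root hirr (x / D)
    have e : (x / D) ^ 3 + a * (x / D) + b = (x ^ 3 + (a * D ^ 2) * x + b * D ^ 3) / D ^ 3 := by
      field_simp
    rw [e]
    have h1 : x ^ 3 + (a * D ^ 2) * x + b * D ^ 3 = 0 := hx
    rw [h1, zero_div]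
  have htr := fun (e : AlgebraicClosure F) (he : e = e1 ∨ e = e2 ∨ e = e3) =>
    Pool.Agent.TH115.GD.trans_roots (K := F) (F := F) hC hnr e he
  have hK : ∀ f : selC (tw a b D), ∃ (t : AlgebraicClosure F) (z : L), t ≠ 0 ∧
      t ^ 2 = algebraMap L (AlgebraicClosure F) z ∧
      ∀ τ : AlgebraicClosure F ≃ₐ[F] AlgebraicClosure F, τ e1 = e1 → τ t = sC e1 (f.1 τ) * t := by
    intro f
    exact Pool.Agent.TH115.GD.kummerN (K := F) (N := L) (Ω := AlgebraicClosure F) hC rfl htop
      (g := f.1) f.2.1.1.1 (fun σ τ => f.2.1.1.2 σ τ) f.2.2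
  choose t z ht hz hk using hK
  refine ⟨z, fun f => ⟨?_, fun v hv => ?_⟩, ?_⟩
  · intro h0
    have h1 := hz f
    rw [h0, map_zero] at h1
    exact ht f (pow_eq_zero_iff two_ne_zero |>.1 h1)
  · exact app_sel hroot hΔ hC rfl f.2.1.1 f.2.2 hv (f.2.1.2.1 v) (ht f) (hz f) (hk f)
  · intro f g hsq
    obtain ⟨s, hs⟩ := hsq
    -- `t f * t g = ± s`
    have h1 : (t f * t g) ^ 2 = (algebraMap L (AlgebraicClosure F) s) ^ 2 := by
      rw [mul_pow, hz, hz, ← map_mul, hs, map_mul, sq]
    have hfix : ∀ σ : AlgebraicClosure F ≃ₐ[F] AlgebraicClosure F, σ e1 = e1 → σ (t f * t g) = t f * t g := by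
      intro σ hσ
      obtain ⟨σ', hσ'⟩ := Pool.Agent.TH115.GD.lift_fix htop σ hσ
      have h2 : σ (algebraMap L (AlgebraicClosure F) s) = algebraMap L (AlgebraicClosure F) s := by
        rw [← hσ', σ'.commutes]
      rcases sq_eq_sq_iff_eq_or_eq_neg.1 h1 with h3 | h3
      · rw [h3, h2]
      · rw [h3, map_neg, h2]
    have hfg : ∀ σ, (f.1 - g.1) σ = f.1 σ + g.1 σ := by
      intro σ
      show f.1 σ - g.1 σ = f.1 σ + g.1 σ
      rw [sub_eq_add_neg, neg_eq_of_add_eq_zero_left (g.2.2 σ)]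
    have hsC : ∀ σ : AlgebraicClosure F ≃ₐ[F] AlgebraicClosure F, σ e1 = e1 → sC e1 ((f.1 - g.1) σ) = 1 := by
      intro σ hσ
      have h2 := hfix σ hσ
      rw [map_mul, hk f σ hσ, hk g σ hσ] at h2
      rw [hfg, Pool.Agent.TH115.GD.sC_add hC (f.2.2 σ) (g.2.2 σ)]
      have h3 : t f * t g ≠ 0 := mul_ne_zero (ht f) (ht g)
      have h4 : sC e1 (f.1 σ) * sC e1 (g.1 σ) * (t f * t g) = 1 * (t f * t g) := by
        linear_combination h2
      exact mul_right_cancel₀ h3 h4
    have hsel : f.1 - g.1 ∈ selC (tw a b D) := (selC (tw a b D)).sub_mem f.2 g.2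
    obtain ⟨R, hR, hR'⟩ := Pool.Agent.TH115.GD.cob1 (K := F) (F := F) (Ω := AlgebraicClosure F) hC htr
      (f := f.1 - g.1) (fun σ τ => hsel.1.1.2 σ τ) hsel.2 hsC
    exact ⟨R, hR, fun σ => hR' σ⟩

end Pool.Agent.H575.ES
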