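import Pool.Graph.R_seed8.TH115.TC.Cob
import Pool.Graph.R_seed8.TH115.TC.KumN
import Pool.Graph.R_seed8.TH115.TC.Roots

/-!
# Project ES (helper575), job KUM, part A: one local point for all primes above `v`

Adapted from `Pool/Graph/R_seed8/TH115/TC/Emb.lean` (`transfer`) and `LocC.lean` (`locC`): the point `Q` over the
completion does not depend on the embeddings, and it may be changed by a double.
-/

set_option autoImplicit false
set_option linter.all false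

open WeierstrassCurve WeierstrassCurve.Affine
open scoped Classical

namespace Pool.Agent.H575.ES

open Pool.Agent.TH115.GD
open Pool.Agent.W309.TD (locConst_apply exists_root compare)

section transfer

variable {F Ω L Ω' : Type} [Field F] [Field Ω] [Field L] [Field Ω']
  [Algebra F Ω] [IsGalois F Ω] [Algebra F L] [Algebra L Ω'] [Algebra F Ω'] [IsScalarTower F L Ω']
  [IsGalois L Ω'] (W : WeierstrassCurve F)

/-- the property of the point `Q`: its halves give the restriction of the cocycle -/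
def PQ (f : (Ω ≃ₐ[F] Ω) → Pt W Ω) (Ω' : Type) [Field Ω'] [Algebra L Ω'] [Algebra F Ω'] [IsScalarTower F L Ω']
    (Q : Pt W L) : Prop :=
  ∀ (E Ω'' : Type) [Field E] [Field Ω''] [Algebra F E] [Algebra E Ω''] [Algebra F Ω'']
    [IsScalarTower F E Ω''] (κ : Ω' →ₐ[F] Ω''),
    (∀ τ : Ω'' ≃ₐ[E] Ω'', ∃ τ' : Ω' ≃ₐ[L] Ω', ∀ x, τ (κ x) = κ (τ' x)) → ∀ c : Ω →ₐ[F] Ω'',
    ∃ P : Pt W Ω'', P + P = act W (κ.comp (incl F L Ω')) Q ∧
      ∀ (τ : Ω'' ≃ₐ[E] Ω'') (σ : Ω ≃ₐ[F] Ω), (∀ x, τ (c x) = c (σ x)) →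
        act W c (f σ) = act W (rs F τ) P - P

theorem transferQ {f : (Ω ≃ₐ[F] Ω) → Pt W Ω} (hf : IsCoc W f) (hf2 : ∀ σ, f σ + f σ = 0)
    (hloc : LocTriv W L Ω' f) : ∃ Q : Pt W L, PQ W f Ω' Q := by
  obtain ⟨ι, P0, hP⟩ := hloc
  choose res hres using exists_restrict (F := F) (Ω := Ω) (L := L) (Ω' := Ω') ι
  set ι' : Ω →ₐ[F] Ω' := ι.restrictScalars F with hι'
  have hT : ∀ τ : Ω' ≃ₐ[L] Ω', act W ι' (f (res τ)) = act W (rs F τ) P0 - P0 :=
    fun τ => hP τ (res τ) (hres τ)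
  have hPP : ∀ τ : Ω' ≃ₐ[L] Ω', act W (rs F τ) (P0 + P0) = P0 + P0 := by
    intro τ
    have h1 : act W (rs F τ) P0 = P0 + act W ι' (f (res τ)) := by rw [hT]; abel
    rw [map_add, h1, add_add_add_comm, (two_act W ι' _).2 (hf2 _), add_zero]
  obtain ⟨Q, hQ⟩ := fixed_point (K := F) (F := L) W (P0 + P0) hPP
  refine ⟨Q, ?_⟩
  intro E Ω'' _ _ _ _ _ _ κ hκ c
  set κ' : Ω' →ₐ[F] Ω'' := κ.restrictScalars F with hκ'
  obtain ⟨ρ, hρ⟩ := exists_aut (κ.comp ι) c
  refine ⟨act W κ' P0 + act W (κ'.comp ι') (f ρ), ?_, fun τ σ h => ?_⟩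
  · rw [add_add_add_comm, (two_act W _ _).2 (hf2 ρ), add_zero, ← map_add, ← hQ, act_act]
    rfl
  · obtain ⟨τ', hτ'⟩ := hκ τ
    -- `res τ' = ρ σ ρ⁻¹`
    have hconj : ∀ x, τ' (ι x) = ι ((ρ * σ * ρ⁻¹) x) := by
      intro x
      apply κ.injective
      show κ (τ' (ι x)) = κ (ι ((ρ * σ * ρ⁻¹) x))
      rw [← hτ']
      have e1 : κ (ι x) = c (ρ⁻¹ x) := by
        rw [hρ, ← AlgEquiv.mul_apply, mul_inv_cancel]; rfl
      rw [e1, h, hρ]
      rfl
    have h1 := hP τ' _ hconj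
    have h2 : f (ρ * σ * ρ⁻¹ * ρ) = f (ρ * σ * ρ⁻¹) + act W (rs F (ρ * σ * ρ⁻¹)) (f ρ) :=
      hf.mul _ _
    have h3 : ρ * σ * ρ⁻¹ * ρ = ρ * σ := by group
    rw [h3, hf.mul] at h2
    have h4 : act W (rs F ρ) (f σ) = f (ρ * σ * ρ⁻¹) + act W (rs F (ρ * σ * ρ⁻¹)) (f ρ) - f ρ := by
      rw [← h2]; abel
    have ec : act W (c.restrictScalars F) (f σ) = act W (κ'.comp ι') (act W (rs F ρ) (f σ)) := by
      have e6 : (κ'.comp ι').comp (rs F ρ) = c.restrictScalars F := AlgHom.ext fun x => (hρ x).symm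
      rw [act_act, e6]
    have e5 : act W (κ'.comp ι') (f (ρ * σ * ρ⁻¹)) = act W (rs F τ) (act W κ' P0) - act W κ' P0 := by
      have e6 : (κ').comp (rs F τ') = (rs F τ).comp κ' := AlgHom.ext fun x => (hτ' x).symm
      rw [← act_act, h1, map_sub, act_act, act_act, e6]
    have e7 : act W (κ'.comp ι') (act W (rs F (ρ * σ * ρ⁻¹)) (f ρ)) =
        act W (rs F τ) (act W (κ'.comp ι') (f ρ)) := by
      have e8 : (κ'.comp ι').comp (rs F (ρ * σ * ρ⁻¹)) = (rs F τ).comp (κ'.comp ι') := by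
        refine AlgHom.ext fun x => ?_
        show κ (ι ((ρ * σ * ρ⁻¹) x)) = τ (κ (ι x))
        rw [hτ', hconj]
      rw [act_act, act_act, e8]
    show act W (c.restrictScalars F) (f σ) = _
    rw [ec, h4, map_sub, map_add, e5, e7, map_add]
    abel

/-- the point may be changed by a double -/
theorem PQ.add {f : (Ω ≃ₐ[F] Ω) → Pt W Ω} {Q : Pt W L} (h : PQ W f Ω' Q) (S : Pt W L) :
    PQ W f Ω' (Q + (S + S)) := by
  intro E Ω'' _ _ _ _ _ _ κ hκ c
  obtain ⟨P, hP, hτ⟩ := h E Ω'' κ hκ c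
  refine ⟨P + act W (κ.comp (incl F L Ω')) S, ?_, fun τ σ hh => ?_⟩
  · rw [map_add, map_add, ← hP]
    abel
  · obtain ⟨τ', hτ'⟩ := hκ τ
    have e : (rs F τ).comp (κ.comp (incl F L Ω')) = κ.comp (incl F L Ω') := by
      refine AlgHom.ext fun x => ?_
      show τ (κ (algebraMap L Ω' x)) = κ (algebraMap L Ω' x)
      rw [hτ', τ'.commutes]
    rw [hτ τ σ hh, map_add, act_act, e]
    abel

end transfer

section locQ

variable {F Ω L Ω' E M : Type} [Field F] [Field Ω] [Field L] [Field Ω'] [Field E]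
  [Field M] [Algebra F Ω]
  [IsGalois F Ω]
  [Algebra F L]
  [Algebra L Ω'] [Algebra F Ω'] [IsScalarTower F L Ω'] [IsGalois L Ω']
  [Algebra F E]
  [Algebra F M] [Algebra M Ω] [IsScalarTower F M Ω] [Algebra M E] [IsScalarTower F M E]
  (W : WeierstrassCurve F)

theorem locQ (Ω'' : Type) [Field Ω''] [Algebra E Ω''] [Algebra F Ω'']
    [IsScalarTower F E Ω''] [IsGalois E Ω'']
    [IsSepClosed Ω''] {a b c : Ω} {θ : M} (hC : IsC (W.baseChange Ω).toAffine a b c)
    (hθ : algebraMap M Ω θ = a) (j : L →+* E)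
    (hj : ∀ x : F, j (algebraMap F L x) = algebraMap F E x)
    {f : (Ω ≃ₐ[F] Ω) → Pt W Ω} (hf2 : ∀ σ, f σ + f σ = 0)
    {x y : L} {hxy : (W.baseChange L).toAffine.Nonsingular x y} (hy : y ≠ 0)
    (hQ : PQ W f Ω' (Point.some x y hxy)) {t : Ω} {z : M} (ht : t ≠ 0) (hz : t ^ 2 = algebraMap M Ω z)
    (hk : ∀ σ : Ω ≃ₐ[F] Ω, σ a = a → σ t = sC a (f σ) * t) :
    ∃ g : E, g ≠ 0 ∧ algebraMap M E z = g ^ 2 * (j x - algebraMap M E θ) := by
  obtain ⟨κ, hκ1, hκ2⟩ := exists_kappa (F := F) (L := L) (Ω' := Ω') (E := E) (Ω'' := Ω'') j hj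
  -- the embedding
  obtain ⟨i, hi⟩ : ∃ i : Ω →ₐ[F] Ω'', ∀ m : M, i (algebraMap M Ω m) =
      algebraMap E Ω'' (algebraMap M E m) := by
    letI : Algebra M Ω'' := ((algebraMap E Ω'').comp (algebraMap M E)).toAlgebra
    haveI : Algebra.IsSeparable M Ω := Algebra.isSeparable_tower_top_of_isSeparable F M Ω
    let i0 : Ω →ₐ[M] Ω'' := IsSepClosed.lift
    refine ⟨{ i0.toRingHom with commutes' := fun x => ?_ }, fun m => i0.commutes m⟩
    show i0 (algebraMap F Ω x) = _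
    rw [IsScalarTower.algebraMap_apply F M Ω, i0.commutes]
    show algebraMap E Ω'' (algebraMap M E (algebraMap F M x)) = _
    rw [← IsScalarTower.algebraMap_apply F M E, ← IsScalarTower.algebraMap_apply F E Ω'']
  obtain ⟨P, hPQ, hP⟩ := hQ E Ω'' κ hκ2 i
  choose res hres using exists_restrict (F := F) (Ω := Ω) (L := E) (Ω' := Ω'') i
  set i' : Ω →ₐ[F] Ω'' := i.restrictScalars F with hi'
  have hC' := hC.map i'
  have hia : i a = algebraMap E Ω'' (algebraMap M E θ) := by rw [← hθ, hi]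
  have hfix : ∀ τ : Ω'' ≃ₐ[E] Ω'', res τ a = a := by
    intro τ
    apply i.injective
    show i (res τ a) = i a
    rw [← hres, hia, τ.commutes]
  have hT : ∀ τ : Ω'' ≃ₐ[E] Ω'', act W i' (f (res τ)) = act W (rs F τ) P - P :=
    fun τ => hP τ (res τ) (hres τ)
  have hTT : ∀ τ : Ω'' ≃ₐ[E] Ω'', (act W (rs F τ) P - P) + (act W (rs F τ) P - P) = 0 := by
    intro τ
    rw [← hT]
    exact (two_act W i' _).2 (hf2 _)
  have A : ∀ τ : Ω'' ≃ₐ[E] Ω'', τ (i t) = sC (i' a) (act W (rs F τ) P - P) * i t := by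
    intro τ
    rw [hres, hk _ (hfix τ), map_mul, ← hT, sC_act]
    rfl
  have B : ∀ τ : Ω'' ≃ₐ[E] Ω'', τ (hc (i' a) (i' b) (i' c) P) =
      sC (i' a) (act W (rs F τ) P - P) * hc (i' a) (i' b) (i' c) P := by
    intro τ
    have e1 : hc ((rs F τ) (i' a)) ((rs F τ) (i' b)) ((rs F τ) (i' c)) (act W (rs F τ) P) =
        (rs F τ) (hc (i' a) (i' b) (i' c) P) := hc_act W (rs F τ) _ _ _ P
    have ea : (rs F τ) (i' a) = i' a := by
      show τ (i a) = i a
      rw [hres, hfix]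
    have e3 : hc ((rs F τ) (i' a)) ((rs F τ) (i' b)) ((rs F τ) (i' c)) (act W (rs F τ) P) =
        hc (i' a) (i' b) (i' c) (act W (rs F τ) P) := by
      rw [ea]
      rcases hC'.perm1 (rs F τ) ea with ⟨h1, h3⟩ | ⟨h1, h3⟩
      · rw [h1, h3]
      · rw [h1, h3, hc_swap]
    rw [e3] at e1
    have e4 : act W (rs F τ) P = P + (act W (rs F τ) P - P) := by abel
    rw [e4, hc_translate hC' (hTT τ)] at e1
    · rw [e4] at e1
      simp only [add_sub_cancel_left] at e1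
      exact e1.symm
    · intro hP0
      have h5 : act W (rs F τ) P - P = act W (rs F τ) P + P := by
        rw [sub_eq_add_neg, neg_eq_of_add_eq_zero_left hP0]
      have h6 : act W (rs F τ) P + act W (rs F τ) P = 0 := (two_act W _ _).2 hP0
      rw [h5, sC_add hC' h6 hP0]
      have h7 : sC (i' a) (act W (rs F τ) P) = sC (i' a) P := by
        have := sC_act' W (rs F τ) (i' a) P
        rwa [ea] at this
      rw [h7, sC_mul_self]
  have hne := hc_ne hC' P
  obtain ⟨g, hg, q⟩ := compare (K := E) ((map_ne_zero i).2 ht) hne _ (fun τ => sC_ne _) A B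
  have q2 : algebraMap E Ω'' (algebraMap M E z) = algebraMap E Ω'' g ^ 2 *
      dc (i' a) (i' b) (i' c) (P + P) := by
    rw [← hc_sq hC', ← mul_pow, ← q, ← map_pow, hz, hi]
  have injE := (algebraMap E Ω'').injective
  rw [hPQ] at q2
  obtain ⟨h', hh⟩ := act_some W (κ.comp (incl F L Ω')) hxy
  rw [hh] at q2
  have ex : (κ.comp (incl F L Ω')) x = algebraMap E Ω'' (j x) := hκ1 x
  simp only [dc, ex] at q2
  have hx : j x ≠ algebraMap M E θ := by
    intro hx
    apply hy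
    have h1 : y ^ 2 = cub W x := hC.eqnL hxy
    have h2 : (κ.comp (incl F L Ω')) x = i' a := by
      rw [ex, hx]
      exact hia.symm
    have h3 := cub_map W (κ.comp (incl F L Ω')) x
    rw [h2, hC'.root_a] at h3
    have h4 : cub W x = 0 := (map_eq_zero (κ.comp (incl F L Ω'))).1 h3.symm
    rw [h4] at h1
    exact pow_eq_zero_iff (two_ne_zero) |>.1 h1
  have hx' : algebraMap E Ω'' (j x) ≠ i' a := fun h => hx (injE (by rw [h]; exact hia))
  rw [if_neg hx'] at q2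
  refine ⟨g, hg, injE ?_⟩
  have hia' : i' a = algebraMap E Ω'' (algebraMap M E θ) := hia
  rw [q2, map_mul, map_pow, map_sub, hia']

end locQ

end Pool.Agent.H575.ES
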