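import Pool.Agent.H575.ES.Stm
import Pool.Graph.R_seed8.TH115.TC.Compl

/-!
# Project ES (helper575), job KUM, part B: approximation of the local point
-/

set_option autoImplicit false
set_option linter.all false

namespace Pool.Agent.H575.ES

open Polynomial NumberField IsDedekindDomain Finset Filter Topology
open Pool.Agent.Q51.EL (Abv Par)
open Pool.Agent.Q161.ESN
open Pool.Agent.Q193.ESG (U1)

section nb

variable {F : Type} [Field F] [NumberField F] (v : HeightOneSpectrum (𝓞 F))

theorem nb_zero : {z : v.adicCompletion F | Valued.v z < 1} ∈ 𝓝 (0 : v.adicCompletion F) := by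
  rw [Valued.mem_nhds_zero]
  exact ⟨1, fun z hz => by
    have := (Valuation.restrict_lt_iff_lt_embedding _).1 hz
    simpa using this⟩

theorem nb_pt (x c : v.adicCompletion F) (hc : c ≠ 0) :
    {z : v.adicCompletion F | Valued.v (z - x) < Valued.v c} ∈ 𝓝 x := by
  have hcont : ContinuousAt (fun z : v.adicCompletion F => (z - x) * c⁻¹) x :=
    (continuousAt_id.sub continuousAt_const).mul continuousAt_const
  have h0 : (x - x) * c⁻¹ = 0 := by simp
  have h1 := hcont.preimage_mem_nhds (by rw [h0]; exact nb_zero v)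
  refine Filter.mem_of_superset h1 fun z hz => ?_
  have h2 : Valued.v ((z - x) * c⁻¹) < 1 := hz
  have hc' : Valued.v c ≠ 0 := (Valuation.ne_zero_iff _).2 hc
  rw [map_mul, map_inv₀] at h2
  show Valued.v (z - x) < Valued.v c
  have h3 := (mul_inv_lt_iff₀ (zero_lt_iff.2 hc')).1 h2
  rwa [one_mul] at h3

theorem near (x c : v.adicCompletion F) (hc : c ≠ 0) (P : v.adicCompletion F → v.adicCompletion F)
    (hP : Continuous P) (d : v.adicCompletion F) (hd : d ≠ 0) :
    ∃ x0 : F, Valued.v (algebraMap F (v.adicCompletion F) x0 - x) < Valued.v c ∧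
      Valued.v (P (algebraMap F (v.adicCompletion F) x0) - P x) < Valued.v d := by
  have h1 := nb_pt v x c hc
  have h2 := hP.continuousAt.preimage_mem_nhds (nb_pt v (P x) d hd)
  obtain ⟨z, hz, x0, rfl⟩ := mem_closure_iff_nhds.1
    (HeightOneSpectrum.denseRange_algebraMap F v x) _ (Filter.inter_mem h1 h2)
  exact ⟨x0, hz.1, hz.2⟩

end nb

section ov

variable {F L : Type} [Field F] [NumberField F] [Field L] [NumberField L] [Algebra F L]
  {v : HeightOneSpectrum (𝓞 F)} {u : HeightOneSpectrum (𝓞 L)}

theorem ov_one (h : Ov u v) {x : F} (hx : v.valuation F x ≤ 1) : u.valuation L (algebraMap F L x) ≤ 1 := by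
  obtain ⟨a, ⟨b, hb⟩, hab⟩ := v.exists_primeCompl_mul_eq_of_integer (K := F) x hx
  change x * (b : F) = (a : F) at hab
  have hb' : b ∉ v.asIdeal := hb
  have h1 : iO F L b ∉ u.asIdeal := fun h2 => hb' ((h b).2 h2)
  have h2 : u.valuation L (algebraMap F L (b : F)) = 1 := Pool.Agent.Q124.ESM.val_one h1
  have h3 : u.valuation L (algebraMap F L (a : F)) ≤ 1 := u.valuation_le_one (K := L) (iO F L a)
  rw [← hab, map_mul, map_mul, h2, mul_one] at h3
  exact h3

theorem ov_lt (h : Ov u v) {x : F} (hx : v.valuation F x < 1) : u.valuation L (algebraMap F L x) < 1 := by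
  obtain ⟨a, ⟨b, hb⟩, hab⟩ := v.exists_primeCompl_mul_eq_of_integer (K := F) x hx.le
  change x * (b : F) = (a : F) at hab
  have hb' : b ∉ v.asIdeal := hb
  have h1 : iO F L b ∉ u.asIdeal := fun h2 => hb' ((h b).2 h2)
  have h2 : u.valuation L (algebraMap F L (b : F)) = 1 := Pool.Agent.Q124.ESM.val_one h1
  have hvb : v.valuation F (b : F) = 1 := Pool.Agent.Q124.ESM.val_one hb'
  have h4 : v.valuation F (a : F) < 1 := by rw [← hab, map_mul, hvb, mul_one]; exact hx
  have h5 : a ∈ v.asIdeal := (v.valuation_lt_one_iff_mem a).1 h4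
  have h6 : iO F L a ∈ u.asIdeal := (h a).1 h5
  have h3 : u.valuation L (algebraMap F L (a : F)) < 1 := (u.valuation_lt_one_iff_mem (iO F L a)).2 h6
  rw [← hab, map_mul, map_mul, h2, mul_one] at h3
  exact h3

end ov

section app

variable {F L : Type} [Field F] [NumberField F] [Field L] [NumberField L] [Algebra F L]
  {v : HeightOneSpectrum (𝓞 F)}

theorem max_elt (s t : v.adicCompletion F) : ∃ m : v.adicCompletion F, Valued.v s ≤ Valued.v m ∧
    Valued.v t ≤ Valued.v m := by
  rcases le_total (Valued.v s) (Valued.v t) with h | h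
  · exact ⟨t, h, le_rfl⟩
  · exact ⟨s, le_rfl, h⟩

theorem val_alg (u : HeightOneSpectrum (𝓞 L)) (z : L) :
    Valued.v (algebraMap L (u.adicCompletion L) z) = u.valuation L z :=
  HeightOneSpectrum.valuedAdicCompletion_eq_valuation' u z

theorem U1.down {u : HeightOneSpectrum (𝓞 L)} {z : L}
    (h : U1 (Valued.v : Valuation (u.adicCompletion L) _) (algebraMap L (u.adicCompletion L) z)) :
    U1 (u.valuation L) z := by
  have h1 : Valued.v (algebraMap L (u.adicCompletion L) z - 1) < 1 := h
  rw [← map_one (algebraMap L (u.adicCompletion L)), ← map_sub, val_alg] at h1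
  exact h1

/-- the lower bound for `x - T` -/
theorem low {E : Type} [Field E] (val : Valuation E (WithZero (Multiplicative ℤ))) {x y m T A B : E}
    (h1 : 1 ≤ val m) (hx : val x ≤ val m) (hA : val A ≤ val m) (hB : val B ≤ val m)
    (hT : T ^ 3 + A * T + B = 0) (hxy : y ^ 2 = x ^ 3 + A * x + B) :
    val y ^ 2 ≤ val (x - T) * val m ^ 2 := by
  have hm : val m ≤ val m ^ 2 := by
    rw [sq]
    exact le_mul_of_one_le_right' h1
  have hTm : val T ≤ val m := by
    by_contra hc
    rw [not_le] at hc
    have hT1 : 1 ≤ val T := h1.trans hc.le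
    have e : T ^ 3 = -(A * T + B) := by linear_combination hT
    have h2 : val T ^ 3 ≤ val m * val T := by
      rw [← map_pow, e, Valuation.map_neg]
      refine (Valuation.map_add _ _ _).trans (max_le ?_ ?_)
      · rw [map_mul]
        exact mul_le_mul' hA le_rfl
      · exact hB.trans (le_mul_of_one_le_right' hT1)
    have h3 : val m * val T < val T * val T := by
      have h0 : 0 < val T := lt_of_lt_of_le zero_lt_one hT1
      exact mul_lt_mul_of_pos_right hc h0
    have h4 : val T * val T ≤ val T ^ 3 := by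
      rw [pow_succ, sq]
      exact le_mul_of_one_le_right' hT1
    exact absurd (h2.trans_lt h3) (not_lt.2 h4)
  have e : y ^ 2 = (x - T) * (x ^ 2 + x * T + T ^ 2 + A) := by
    rw [hxy]
    linear_combination hT
  rw [← map_pow, e, map_mul]
  refine mul_le_mul' le_rfl ?_
  refine (Valuation.map_add _ _ _).trans (max_le ?_ (hA.trans hm))
  refine (Valuation.map_add _ _ _).trans (max_le ?_ ?_)
  · refine (Valuation.map_add _ _ _).trans (max_le ?_ ?_)
    · rw [map_pow]
      exact pow_le_pow_left' hx 2
    · rw [map_mul, sq]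
      exact mul_le_mul' hx hTm
  · rw [map_pow]
    exact pow_le_pow_left' hTm 2

theorem app_of_local (a b D : F) (θ : L)
    (hroot : θ ^ 3 + algebraMap F L a * θ + algebraMap F L b = 0)
    (x y : v.adicCompletion F) (hy : y ≠ 0)
    (hxy : y ^ 2 = x ^ 3 + algebraMap F (v.adicCompletion F) (a * D ^ 2) * x +
      algebraMap F (v.adicCompletion F) (b * D ^ 3)) (δ : L)
    (h : ∀ u : HeightOneSpectrum (𝓞 L), Ov u v → ∀ j : v.adicCompletion F →+* u.adicCompletion L,
      (∀ z : F, j (algebraMap F (v.adicCompletion F) z) =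
        algebraMap L (u.adicCompletion L) (algebraMap F L z)) →
      ∃ g, g ≠ 0 ∧ algebraMap L (u.adicCompletion L) δ = g ^ 2 *
        (j x - algebraMap L (u.adicCompletion L) (algebraMap F L D * θ))) : App a b θ D δ v := by
  set A := algebraMap F (v.adicCompletion F) (a * D ^ 2) with hA
  set B := algebraMap F (v.adicCompletion F) (b * D ^ 3) with hB
  obtain ⟨m1, p1, p2⟩ := max_elt (v := v) 1 x
  obtain ⟨m2, p3, p4⟩ := max_elt (v := v) A B
  obtain ⟨m, p5, p6⟩ := max_elt (v := v) m1 m2
  have q1 : 1 ≤ Valued.v m := by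
    rw [← map_one (Valued.v : Valuation (v.adicCompletion F) _)]
    exact p1.trans p5
  have qx : Valued.v x ≤ Valued.v m := p2.trans p5
  have qA : Valued.v A ≤ Valued.v m := p3.trans p6
  have qB : Valued.v B ≤ Valued.v m := p4.trans p6
  have hm0 : m ≠ 0 := by
    rintro rfl
    rw [map_zero] at q1
    exact absurd q1 (not_le.2 zero_lt_one)
  have hc0 : y ^ 2 / m ^ 2 ≠ 0 := div_ne_zero (pow_ne_zero 2 hy) (pow_ne_zero 2 hm0)
  have hcont : Continuous (fun z : v.adicCompletion F => z ^ 3 + A * z + B) := by fun_prop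
  obtain ⟨x0, hx0, hx1⟩ := near v x (y ^ 2 / m ^ 2) hc0 _ hcont (y ^ 2) (pow_ne_zero 2 hy)
  obtain ⟨y0, hy0, -⟩ := near v y y hy _ continuous_id 1 one_ne_zero
  have hvy : Valued.v y ≠ 0 := (Valuation.ne_zero_iff _).2 hy
  have uy : U1 (Valued.v : Valuation (v.adicCompletion F) _) (algebraMap F (v.adicCompletion F) y0 / y) :=
    U1.of_div hy hy0
  have hy00 : y0 ≠ 0 := by
    rintro rfl
    rw [map_zero, zero_div] at uy
    exact uy.ne rfl
  refine ⟨x0, y0, hy00, ?_, ?_⟩
  · apply U1.down
    have u1 : U1 (Valued.v : Valuation (v.adicCompletion F) _)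
        ((algebraMap F (v.adicCompletion F) x0 ^ 3 + A * algebraMap F (v.adicCompletion F) x0 + B) / y ^ 2) := by
      apply U1.of_div (pow_ne_zero 2 hy)
      rw [← hxy] at hx1
      exact hx1
    have e : algebraMap F (v.adicCompletion F) ((x0 ^ 3 + a * D ^ 2 * x0 + b * D ^ 3) / y0 ^ 2) =
        (algebraMap F (v.adicCompletion F) x0 ^ 3 + A * algebraMap F (v.adicCompletion F) x0 + B) / y ^ 2 *
          ((algebraMap F (v.adicCompletion F) y0 / y)⁻¹) ^ 2 := by
      rw [hA, hB]
      have h3 : algebraMap F (v.adicCompletion F) y0 ≠ 0 := (_root_.map_ne_zero _).2 hy00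
      simp only [map_div₀, map_add, map_mul, map_pow]
      field_simp
    rw [e]
    exact u1.mul (uy.inv.pow 2)
  · intro u hu
    obtain ⟨j, hj, j1, j2⟩ := Pool.Agent.TH115.GD.exists_compl_map v u (algebraMap F L)
      (fun z hz => ov_one hu hz) (fun z hz => ov_lt hu hz)
    obtain ⟨g, hg0, hg⟩ := h u hu j hj
    have jle : ∀ s t : v.adicCompletion F, t ≠ 0 → Valued.v s ≤ Valued.v t →
        Valued.v (j s) ≤ Valued.v (j t) := by
      intro s t ht hst
      have ht' : Valued.v t ≠ 0 := (Valuation.ne_zero_iff _).2 ht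
      have h3 : Valued.v (s / t) ≤ 1 := by
        rw [map_div₀]
        exact (div_le_one₀ (zero_lt_iff.2 ht')).2 hst
      have h4 := j1 _ h3
      have hjt : Valued.v (j t) ≠ 0 := (Valuation.ne_zero_iff _).2 ((_root_.map_ne_zero j).2 ht)
      rw [map_div₀, map_div₀] at h4
      exact (div_le_one₀ (zero_lt_iff.2 hjt)).1 h4
    have jlt : ∀ s t : v.adicCompletion F, t ≠ 0 → Valued.v s < Valued.v t →
        Valued.v (j s) < Valued.v (j t) := by
      intro s t ht hst
      have ht' : Valued.v t ≠ 0 := (Valuation.ne_zero_iff _).2 ht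
      have h3 : Valued.v (s / t) < 1 := by
        rw [map_div₀]
        exact (div_lt_one₀ (zero_lt_iff.2 ht')).2 hst
      have h4 := j2 _ h3
      have hjt : Valued.v (j t) ≠ 0 := (Valuation.ne_zero_iff _).2 ((_root_.map_ne_zero j).2 ht)
      rw [map_div₀, map_div₀] at h4
      exact (div_lt_one₀ (zero_lt_iff.2 hjt)).1 h4
    set T := algebraMap L (u.adicCompletion L) (algebraMap F L D * θ) with hT
    have hT3 : T ^ 3 + j A * T + j B = 0 := by
      rw [hA, hB, hj, hj, hT, ← map_pow, ← map_mul, ← map_add, ← map_add]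
      rw [map_eq_zero]
      simp only [map_mul, map_pow]
      linear_combination (algebraMap F L D) ^ 3 * hroot
    have hxy' : (j y) ^ 2 = (j x) ^ 3 + j A * j x + j B := by
      rw [← map_pow, hxy]
      simp only [map_add, map_mul, map_pow]
    have hm1 : 1 ≤ Valued.v (j m) := by
      have h3 := jle 1 m hm0 (by rw [map_one]; exact q1)
      rwa [map_one, map_one] at h3
    have hlow := low (Valued.v : Valuation (u.adicCompletion L) _) hm1 (jle x m hm0 qx) (jle A m hm0 qA)
      (jle B m hm0 qB) hT3 hxy'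
    have hjm : Valued.v (j m) ≠ 0 := (Valuation.ne_zero_iff _).2 ((_root_.map_ne_zero j).2 hm0)
    have hjy : j y ≠ 0 := (_root_.map_ne_zero j).2 hy
    have hlt : Valued.v (j (algebraMap F (v.adicCompletion F) x0 - x)) < Valued.v (j x - T) := by
      refine lt_of_lt_of_le (jlt _ _ hc0 hx0) ?_
      rw [map_div₀, map_pow, map_pow, map_div₀, map_pow, map_pow]
      exact (div_le_iff₀ (zero_lt_iff.2 (pow_ne_zero 2 hjm))).2 hlow
    have hxT : j x - T ≠ 0 := by
      intro h0
      rw [h0, map_zero] at hlt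
      exact not_lt_zero' hlt
    have e1 : j (algebraMap F (v.adicCompletion F) x0) - T =
        algebraMap L (u.adicCompletion L) (algebraMap F L x0 - algebraMap F L D * θ) := by
      rw [hj, hT, ← map_sub]
    have ux : U1 (Valued.v : Valuation (u.adicCompletion L) _)
        (algebraMap L (u.adicCompletion L) (algebraMap F L x0 - algebraMap F L D * θ) / (j x - T)) := by
      rw [← e1]
      apply U1.of_div hxT
      have e2 : j (algebraMap F (v.adicCompletion F) x0) - T - (j x - T) =
          j (algebraMap F (v.adicCompletion F) x0 - x) := by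
        rw [map_sub]; ring
      rw [e2]
      exact hlt
    have hx00 : algebraMap F L x0 - algebraMap F L D * θ ≠ 0 := by
      intro h0
      rw [h0, map_zero, zero_div] at ux
      exact ux.ne rfl
    obtain ⟨η, hη, -⟩ := near u g g hg0 _ continuous_id 1 one_ne_zero
    have ug : U1 (Valued.v : Valuation (u.adicCompletion L) _) (algebraMap L (u.adicCompletion L) η / g) :=
      U1.of_div hg0 hη
    have hη0 : η ≠ 0 := by
      rintro rfl
      rw [map_zero, zero_div] at ug
      exact ug.ne rfl
    refine ⟨η * (algebraMap F L x0 - algebraMap F L D * θ), mul_ne_zero hη0 hx00, ?_⟩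
    apply U1.down
    have e3 : algebraMap L (u.adicCompletion L) (δ * (algebraMap F L x0 - algebraMap F L D * θ) /
        (η * (algebraMap F L x0 - algebraMap F L D * θ)) ^ 2) =
        ((algebraMap L (u.adicCompletion L) η / g)⁻¹) ^ 2 *
        (algebraMap L (u.adicCompletion L) (algebraMap F L x0 - algebraMap F L D * θ) / (j x - T))⁻¹ := by
      have h3 : algebraMap L (u.adicCompletion L) η ≠ 0 := (_root_.map_ne_zero _).2 hη0
      have h4 : algebraMap L (u.adicCompletion L) (algebraMap F L x0 - algebraMap F L D * θ) ≠ 0 :=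
        (_root_.map_ne_zero _).2 hx00
      rw [map_div₀, map_mul, map_pow, map_mul, hg]
      field_simp
    rw [e3]
    exact (ug.inv.pow 2).mul ux.inv

end app

end Pool.Agent.H575.ES
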