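import Pool.Agent.H575.ES.KumA
import Pool.Agent.H575.ES.KumB
import Pool.Graph.R_pool_sql_team_seeded_3997aac3.Q238.ESF.Core
import Pool.Graph.R_pool_sql_team_seeded_3997aac3.Q193.ESG.XTF

/-!
# Project ES (helper575), job KUM, part C: assembly
-/

set_option autoImplicit false
set_option linter.all false

open scoped Classical

namespace Pool.Agent.H575.ES

open Polynomial NumberField IsDedekindDomain WeierstrassCurve WeierstrassCurve.Affine
open Pool.Agent.Q51.EL (Abv Par)
open Pool.Agent.Q161.ESN (Ov)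
open Pool.Agent.Q193.ESG (U1)
open Pool.Agent.TH115.GD (IsC sC rs ak incl cub)

section sel

variable {F : Type} [Field F] [NumberField F]

theorem charZero_compl (v : HeightOneSpectrum (𝓞 F)) : CharZero (v.adicCompletion F) :=
  charZero_of_injective_algebraMap (algebraMap F (v.adicCompletion F)).injective

/-- cocycles: comparison of the definitions -/
theorem coc_of {W : WeierstrassCurve F} {f : Pool.Agent.Q161.ESF.GF F → Pool.Agent.Q161.ESF.Pt W (AlgebraicClosure F)}
    (h : Pool.Agent.Q161.ESF.IsCoc W f) :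
    Pool.Agent.TH115.GD.IsCoc (K := F) (F := F) (Ω := AlgebraicClosure F) W f :=
  ⟨h.1, fun σ τ => h.2 σ τ⟩

/-- local triviality: comparison of the definitions -/
theorem loc_of {W : WeierstrassCurve F} {f : Pool.Agent.Q161.ESF.GF F → Pool.Agent.Q161.ESF.Pt W (AlgebraicClosure F)}
    (Fv : Type) [Field Fv] [Algebra F Fv] (h : Pool.Agent.Q161.ESF.LocTriv W Fv f) :
    Pool.Agent.TH115.GD.LocTriv (K := F) (F := F) (Ω := AlgebraicClosure F) W Fv (AlgebraicClosure Fv) f := by
  obtain ⟨ι⟩ : Nonempty (AlgebraicClosure F →ₐ[F] AlgebraicClosure Fv) := ⟨IsAlgClosed.lift⟩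
  obtain ⟨P, hP⟩ := h ι
  refine ⟨ι, P, fun τ σ hh => ?_⟩
  exact hP τ σ (AlgHom.ext fun x => hh x)

end sel

section inf

variable {F : Type} [Field F] [NumberField F] {v : HeightOneSpectrum (𝓞 F)}

theorem small_elt (A B : v.adicCompletion F) : ∃ t : v.adicCompletion F, t ≠ 0 ∧
    Valued.v (A * t ^ 4) < 1 ∧ Valued.v (B * t ^ 6) < 1 := by
  obtain ⟨π, hπ⟩ := v.valuation_exists_uniformizer F
  -- powers of the uniformizer tend to zero
  have hπv : Valued.v (algebraMap F (v.adicCompletion F) π) = WithZero.exp (-1 : ℤ) := by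
    rw [← hπ]
    exact HeightOneSpectrum.valuedAdicCompletion_eq_valuation' v π
  have hπ0 : algebraMap F (v.adicCompletion F) π ≠ 0 := by
    intro h
    rw [h, map_zero] at hπv
    exact WithZero.exp_ne_zero hπv.symm
  have hA : ∃ n : ℕ, Valued.v A < WithZero.exp (n : ℤ) := by
    by_cases h0 : Valued.v A = 0
    · exact ⟨0, by rw [h0]; exact WithZero.exp_pos⟩
    · refine ⟨(WithZero.log (Valued.v A)).toNat + 1, ?_⟩
      rw [← WithZero.exp_log h0, WithZero.exp_lt_exp, WithZero.log_exp]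
      have := Int.self_le_toNat (WithZero.log (Valued.v A))
      push_cast
      omega
  have hB : ∃ n : ℕ, Valued.v B < WithZero.exp (n : ℤ) := by
    by_cases h0 : Valued.v B = 0
    · exact ⟨0, by rw [h0]; exact WithZero.exp_pos⟩
    · refine ⟨(WithZero.log (Valued.v B)).toNat + 1, ?_⟩
      rw [← WithZero.exp_log h0, WithZero.exp_lt_exp, WithZero.log_exp]
      have := Int.self_le_toNat (WithZero.log (Valued.v B))
      push_cast
      omega
  obtain ⟨n1, hn1⟩ := hA
  obtain ⟨n2, hn2⟩ := hB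
  have key : ∀ (X : v.adicCompletion F) (m k N : ℕ), 1 ≤ k → m ≤ N → Valued.v X < WithZero.exp (m : ℤ) →
      Valued.v (X * (algebraMap F (v.adicCompletion F) π ^ N) ^ k) < 1 := by
    intro X m k N hk hm hX
    rw [map_mul, map_pow, map_pow, hπv, ← pow_mul, ← WithZero.exp_nsmul]
    calc Valued.v X * WithZero.exp ((N * k) • (-1 : ℤ)) <
        WithZero.exp (m : ℤ) * WithZero.exp ((N * k) • (-1 : ℤ)) :=
          mul_lt_mul_of_pos_right hX WithZero.exp_pos
      _ = WithZero.exp ((m : ℤ) + (N * k) • (-1 : ℤ)) := by rw [WithZero.exp_add]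
      _ ≤ 1 := by
        rw [← WithZero.exp_zero, WithZero.exp_le_exp]
        have h1 : (m : ℤ) ≤ N * k := by
          have : m ≤ N * k := hm.trans (Nat.le_mul_of_pos_right N hk)
          exact_mod_cast this
        simp only [nsmul_eq_mul, Nat.cast_mul, mul_neg, mul_one]
        omega
  refine ⟨algebraMap F (v.adicCompletion F) π ^ (n1 + n2), pow_ne_zero _ hπ0,
    key A n1 4 _ (by norm_num) (by omega) hn1, key B n2 6 _ (by norm_num) (by omega) hn2⟩

theorem two_val (hv : (2 : 𝓞 F) ∉ v.asIdeal) : Valued.v (2 : v.adicCompletion F) = 1 := by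
  have h1 : v.valuation F ((2 : 𝓞 F) : F) = 1 := Pool.Agent.Q124.ESM.val_one hv
  have h2 : Valued.v (algebraMap F (v.adicCompletion F) ((2 : 𝓞 F) : F)) = 1 := by
    rw [← h1]
    exact HeightOneSpectrum.valuedAdicCompletion_eq_valuation' v _
  have e : algebraMap F (v.adicCompletion F) ((2 : 𝓞 F) : F) = 2 := by
    have e1 : ((2 : 𝓞 F) : F) = 2 := map_ofNat (algebraMap (𝓞 F) F) 2
    rw [e1, map_ofNat]
  rwa [e] at h2

theorem exists_four (hv : (2 : 𝓞 F) ∉ v.asIdeal) (W : WeierstrassCurve F) (h1 : W.a₁ = 0) (h2 : W.a₂ = 0)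
    (h3 : W.a₃ = 0) (hΔ : W.Δ ≠ 0) :
    ∃ S : Pool.Agent.TH115.GD.Pt W (v.adicCompletion F), S + S + (S + S) ≠ 0 := by
  obtain ⟨t, ht, hA, hB⟩ := small_elt (v := v) (W.baseChange (v.adicCompletion F)).a₄
    (W.baseChange (v.adicCompletion F)).a₆
  refine Pool.Agent.Q238.ESF.core (L := v.adicCompletion F) (two_val hv) (W.baseChange (v.adicCompletion F))
    _ _ ?_ ?_ ?_ rfl rfl ?_ t ht hA hB
  · show algebraMap F (v.adicCompletion F) W.a₁ = 0
    rw [h1, map_zero]
  · show algebraMap F (v.adicCompletion F) W.a₂ = 0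
    rw [h2, map_zero]
  · show algebraMap F (v.adicCompletion F) W.a₃ = 0
    rw [h3, map_zero]
  · have e : (W.baseChange (v.adicCompletion F)).Δ = algebraMap F (v.adicCompletion F) W.Δ :=
      WeierstrassCurve.map_Δ W _
    rw [e]
    exact (_root_.map_ne_zero _).2 hΔ

end inf

section local_

variable {F L : Type} [Field F] [NumberField F] [Field L] [NumberField L] [Algebra F L]

/-- the local part -/
theorem app_sel {a b D : F} {θ : L} (hroot : θ ^ 3 + algebraMap F L a * θ + algebraMap F L b = 0)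
    (hΔ : (tw a b D).Δ ≠ 0) [Algebra L (AlgebraicClosure F)] [IsScalarTower F L (AlgebraicClosure F)]
    {e1 e2 e3 : AlgebraicClosure F} (hC : IsC ((tw a b D).baseChange (AlgebraicClosure F)).toAffine e1 e2 e3)
    (hθ : algebraMap L (AlgebraicClosure F) (algebraMap F L D * θ) = e1)
    {f : Pool.Agent.Q161.ESF.GF F → Pool.Agent.Q161.ESF.Pt (tw a b D) (AlgebraicClosure F)}
    (hf : Pool.Agent.Q161.ESF.IsCoc (tw a b D) f) (hf2 : ∀ σ, f σ + f σ = 0)
    {v : HeightOneSpectrum (𝓞 F)} (hv : (2 : 𝓞 F) ∉ v.asIdeal)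
    (hloc : Pool.Agent.Q161.ESF.LocTriv (tw a b D) (v.adicCompletion F) f)
    {t : AlgebraicClosure F} {z : L} (ht : t ≠ 0) (hz : t ^ 2 = algebraMap L (AlgebraicClosure F) z)
    (hk : ∀ σ : AlgebraicClosure F ≃ₐ[F] AlgebraicClosure F, σ e1 = e1 → σ t = sC e1 (f σ) * t) :
    App a b θ D z v := by
  haveI := charZero_compl v
  obtain ⟨Q, hQ⟩ := transferQ (L := v.adicCompletion F) (Ω' := AlgebraicClosure (v.adicCompletion F))
    (tw a b D) (coc_of hf) hf2 (loc_of (v.adicCompletion F) hloc)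
  -- the point is not of order two
  obtain ⟨Q', hQ', hne⟩ : ∃ Q' : Pool.Agent.TH115.GD.Pt (tw a b D) (v.adicCompletion F),
      PQ (tw a b D) f (AlgebraicClosure (v.adicCompletion F)) Q' ∧ Q' + Q' ≠ 0 := by
    by_cases h : Q + Q = 0
    · obtain ⟨S, hS⟩ := exists_four hv (tw a b D) rfl rfl rfl hΔ
      refine ⟨Q + (S + S), PQ.add (tw a b D) hQ S, ?_⟩
      have e : Q + (S + S) + (Q + (S + S)) = (Q + Q) + (S + S + (S + S)) := by abel
      rw [e, h, zero_add]
      exact hS
    · exact ⟨Q, hQ, h⟩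
  rcases Q' with _ | ⟨x, y, hxy⟩
  · exact absurd (zero_add _) hne
  have hE := (Affine.equation_iff x y).1 hxy.1
  have ha1 : ((tw a b D).baseChange (v.adicCompletion F)).toAffine.a₁ = 0 := by
    show algebraMap F (v.adicCompletion F) 0 = 0
    rw [map_zero]
  have ha2 : ((tw a b D).baseChange (v.adicCompletion F)).toAffine.a₂ = 0 := by
    show algebraMap F (v.adicCompletion F) 0 = 0
    rw [map_zero]
  have ha3 : ((tw a b D).baseChange (v.adicCompletion F)).toAffine.a₃ = 0 := by
    show algebraMap F (v.adicCompletion F) 0 = 0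
    rw [map_zero]
  have ha4 : ((tw a b D).baseChange (v.adicCompletion F)).toAffine.a₄ =
      algebraMap F (v.adicCompletion F) (a * D ^ 2) := rfl
  have ha6 : ((tw a b D).baseChange (v.adicCompletion F)).toAffine.a₆ =
      algebraMap F (v.adicCompletion F) (b * D ^ 3) := rfl
  rw [ha1, ha2, ha3, ha4, ha6] at hE
  have hy : y ≠ 0 := by
    rintro rfl
    apply hne
    have hneg : ((tw a b D).baseChange (v.adicCompletion F)).toAffine.negY x 0 = 0 := by
      rw [Affine.negY, ha1, ha3]; ring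
    exact Affine.Point.add_self_of_Y_eq (hneg.symm)
  apply app_of_local a b D θ hroot x y hy (by linear_combination hE) z
  intro u hu j hj
  haveI : CharZero (u.adicCompletion L) := charZero_compl u
  have h := locQ (tw a b D) (E := u.adicCompletion L) (M := L) (AlgebraicClosure (u.adicCompletion L)) hC hθ j
    (fun x => hj x) hf2 hy hQ' ht hz hk
  exact h

end local_

end Pool.Agent.H575.ES
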