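import Pool.Graph.R_pool_sql_team_seeded_3997aac3.Q161.ESN.Stm3
import Pool.Graph.R_pool_sql_team_seeded_3997aac3.Q193.ESG.LCF
import Pool.Graph.R_pool_sql_team_seeded_3997aac3.Q224.ESF.LcgA
import Pool.Graph.R_pool_sql_team_seeded_3997aac3.Q161.ESF.Def
import Pool.Graph.R_pool_sql_team_seeded_3997aac3.Q161.ESF.Pow

/-!
# Project ES (helper575): all moments of the 2-Selmer groups of ALL quadratic twists over number fields

GOAL.  `F` ANY number field, `E_i : y² = x³ + a_i x + b_i` elliptic curves over `F` without `F`-rational points of order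
two.  For every `k` there is a `C` such that for all `X ≥ 1` and every set `𝒟` of representatives `D ∈ F^*` of different
classes of `F^*/F^*²` with `∏_{v(D) odd} N v ≤ X`: `∑_{D ∈ 𝒟} ∏_i #Sel_2(E_{i,D}/F)^k ≤ C X`; the same for
`2^rank(E_{i,D}) * #Ш(E_{i,D})[2^n]`.  The sieve and the count (`S_CNTG`) are proved (projects ESM, ESN of helper161, run
3997aac3; `Pool/Agent/H575/ES/AllN.lean`).  Missing: the descent from the cocycles to the interface `Gd1` of
`Pool/Graph/R_pool_sql_team_seeded_3997aac3/Q161/ESN/Stm3.lean`.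

`L = F(θ)` the cubic extension, `θ³ + a θ + b = 0`.  The twist by `D` is `y² = x³ + a D² x + b D³`, its points of order two have
the abscissas `D θ`.
-/

set_option autoImplicit false

namespace Pool.Agent.H575.ES

open Polynomial NumberField IsDedekindDomain Finset
open Pool.Agent.Q51.EL (Abv Par)
open Pool.Agent.Q161.ESN
open Pool.Agent.Q193.ESG (U1)
open Pool.Agent.Q161.ESF

/-- the quadratic twist by `D` of `y² = x³ + a x + b` -/
def tw {F : Type} [Field F] (a b D : F) : WeierstrassCurve F := ⟨0, 0, 0, a * D ^ 2, b * D ^ 3⟩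

/-- the class of `δ` is at the prime `v` the one of a point of `y² = x³ + a D² x + b D³`: there are `x, y ∈ F`,
`y ≠ 0`, such that `x³ + a D² x + b D³` is `y²` times a principal unit, and `δ (x - D θ)` is a square times a
principal unit at all primes of `L` above `v` -/
def App {F L : Type} [Field F] [NumberField F] [Field L] [NumberField L] [Algebra F L] (a b : F)
    (θ : L) (D : F) (δ : L) (v : HeightOneSpectrum (𝓞 F)) : Prop :=
  ∃ x y : F, y ≠ 0 ∧ U1 (v.valuation F) ((x ^ 3 + a * D ^ 2 * x + b * D ^ 3) / y ^ 2) ∧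
    ∀ u : HeightOneSpectrum (𝓞 L), Ov u v → ∃ η : L, η ≠ 0 ∧
      U1 (u.valuation L) (δ * (algebraMap F L x - algebraMap F L D * θ) / η ^ 2)

open Classical in
/-- the norm of the product of the primes at which the valuation of `D` is odd -/
noncomputable def cond {F : Type} [Field F] [NumberField F] (D : F) : ℕ :=
  ∏ᶠ (v : HeightOneSpectrum (𝓞 F)) (_ : Par v D 1), Ideal.absNorm v.asIdeal

/-- JOB LCG. From `App` to the local conditions `Gd1`.
Proof.  Adapt `Pool/Graph/R_pool_sql_team_seeded_3997aac3/Q193/ESG/LCF.lean` (there: `D ∈ ℤ`, embeddings over `ℚ` with blocks, a global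
point `(x, y)`; here `D ∈ 𝓞 F`, embeddings `ι : L →ₐ[F] K` over `F` — one block of three embeddings —, and an
approximate point).  `B` is divisible by `2`, by the `B` of `S_FRX` (`Pool.Agent.Q153.ESN.frx`, or `Pool.Agent.Q224.ESM.frx K`: the
primes `l ∤ B` are unramified in `K`), and by a multiple of `4 a³ + 27 b²`.  Let `l ∤ B`, `w` above `l`, `v` the prime of `F` below
`w`, `x, y` from `App` at `v`.  For `ι : L →ₐ[F] K` let `u` be the prime of `L` below `w` via `ι` (`Ov u v` holds) and choose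
`η_ι ∈ L`, `η_ι ≠ 0`, with `U1 w (ι δ * (x - D ι θ) / (ι η_ι)²)`; choose it with `Classical.epsilon` (or `Exists.choose`
after rewriting) of this predicate in `η`: for `φ` with `Fb w l φ` the valuation at `w` is invariant under `φ`, so the predicates for
`ι` and `cp φ ι` are equal and `η_(φ ι) = η_ι`.  The lemmas `evnU`, `triU`, `sq1U`, `sq2U` (`Q224/ESF/LcgA.lean`), `sq3`
(`LcfA.lean`) with `e1, e2, e3 = ι θ` (the three embeddings) give as in `loc_odd` that, with `e ι` = the parity of the valuation of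
`x - D ι θ`, `(x - D ι θ) * (if e ι = 1 then D else 1) * uu θ e ι / rr_ι²` is a principal unit with
`φ (rr ι) = rr (cp φ ι)`.  As `ι δ * (x - D ι θ) / (ι η_ι)²` is a principal unit, `ι δ` and `x - D ι θ` have the
same parity, and `ι δ * (..) * uu / ((x - D ι θ)⁻¹ * ι η_ι * rr_ι)²` is a principal unit (up to squaring a principal unit);
`∏_{ι ∈ A}` of the `(x - D ι θ)⁻¹ * ι η_ι * rr_ι` is fixed by `φ`, and `Pool.Agent.Q193.ESG.qr_of` (adapt `fix_pow`, `qr_of` to
`K ≃ₐ[F] K`: see `Q238/ESN/QR.lean`, `Q65/ESN`, or restrict scalars to `ℚ`) gives `QR`.  `D ∉ w`: the valuation of `D` at `w` is `1`;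
`D ∈ w`: it is `exp (-1)` (`SqF`, `w` unramified over `v`; `Pool.Agent.Q190.ESN` has `val_blw`-type lemmas). -/
def S_LCG : Prop := ∀ (F L K : Type) [Field F] [NumberField F] [Field L] [NumberField L] [Algebra F L]
  [Field K] [NumberField K] [Algebra F K] [IsGalois ℚ K] (a b : 𝓞 F) (th : 𝓞 L),
  Irreducible (X ^ 3 + C (a : F) * X + C (b : F) : F[X]) →
  (th : L) ^ 3 + algebraMap F L a * (th : L) + algebraMap F L b = 0 → Module.finrank F L = 3 →
  Nonempty (L →ₐ[F] K) →
  ∃ B1 : ℕ, B1 ≠ 0 ∧ ∀ B : ℕ, B1 ∣ B → B ≠ 0 → ∀ (D : 𝓞 F) (δ : L), SqF B D → δ ≠ 0 →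
    (∀ v : HeightOneSpectrum (𝓞 F), (2 : 𝓞 F) ∉ v.asIdeal → App (a : F) (b : F) (th : L) (D : F) δ v) →
    Gd1 F K th B D δ

open scoped Classical in
/-- JOB KUM. The Kummer generators of the Selmer elements (helper575). -/
def S_KUM : Prop := ∀ (F L : Type) [Field F] [NumberField F] [Field L] [NumberField L] [Algebra F L]
  (a b : F) (θ : L), Irreducible (X ^ 3 + C a * X + C b : F[X]) →
  θ ^ 3 + algebraMap F L a * θ + algebraMap F L b = 0 → Module.finrank F L = 3 →
  ∀ D : F, D ≠ 0 → ∃ κ : selC (tw a b D) → L,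
    (∀ f, κ f ≠ 0 ∧ ∀ v : HeightOneSpectrum (𝓞 F), (2 : 𝓞 F) ∉ v.asIdeal → App a b θ D (κ f) v) ∧
    ∀ f g : selC (tw a b D), IsSquare (κ f * κ g) → f.1 - g.1 ∈ cobT (tw a b D)

/-- JOB REP. Integral representatives of the classes modulo squares.
Proof.  `Pool.Agent.Q51.EL.S_CL` (proved: `Pool.Agent.Q239.EL.cl`) for `F`, `D` and the set of the primes with odd valuation
(not dividing its `B`); `cond D` is the product of the norms of all primes with odd valuation (a finite set). -/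
def S_REP : Prop := ∀ (F : Type) [Field F] [NumberField F], ∃ (B1 : ℕ) (C : ℝ), B1 ≠ 0 ∧ 0 < C ∧
  ∀ D : F, D ≠ 0 → ∃ (D0 : 𝓞 F) (c : F), c ≠ 0 ∧ (D0 : F) = D * c ^ 2 ∧ (∀ B, B1 ∣ B → SqF B D0) ∧
    ((Ideal.absNorm (Ideal.span {D0}) : ℕ) : ℝ) ≤ C * (cond D : ℝ)

/-- JOB KFX. A number field `K`, Galois over `ℚ`, which contains given extensions `L i` of `F`.
Proof.  `Pool.Graph.R_pool_sql_team_seeded_3997aac3.Q211.ESG.Kxn` (`S_KXN` of `Q161/ESG/Stm6.lean`) for the fields `F`, `L i` (index type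
`Option ι`); `Algebra F K` from the embedding `j` of `F`.  Given `j_i : L i →+* K` the restriction to `F` is another
embedding of `F` in `K`; as `K/ℚ` is Galois (normal) there is a `g ∈ Gal(K/ℚ)` with `g ∘ j_i |_F = j`. -/
def S_KFX : Prop := ∀ (F ι : Type) [Field F] [NumberField F] [Fintype ι] (L : ι → Type)
  [∀ i, Field (L i)] [∀ i, NumberField (L i)] [∀ i, Algebra F (L i)],
  ∃ (K : Type) (_ : Field K) (_ : NumberField K) (_ : Algebra F K), IsGalois ℚ K ∧
    ∀ i, Nonempty (L i →ₐ[F] K)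

/-- JOB DA3. There are three embeddings, and `θ` separates them.
Proof.  `K/F` is normal; compare `blk_card`, `blk_sep` in `Q193/ESG/LcfB.lean` (`AlgHom.card_of_splits`). -/
def S_DA3 : Prop := ∀ (F L K : Type) [Field F] [NumberField F] [Field L] [NumberField L] [Algebra F L]
  [Field K] [NumberField K] [Algebra F K] [IsGalois ℚ K] (a b : F) (th : 𝓞 L),
  Irreducible (X ^ 3 + C a * X + C b : F[X]) →
  (th : L) ^ 3 + algebraMap F L a * (th : L) + algebraMap F L b = 0 → Module.finrank F L = 3 →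
  Nonempty (L →ₐ[F] K) → Dat F K th ∧ Fintype.card (L →ₐ[F] K) = 3

open scoped Classical in
/-- JOB EXA. The exact sequence `E(F)/2 → Sel_2 → Ш[2] → 0` and Mordell-Weil.
Proof.  Let `W` be `y² = x³ + A x + B`, `Ω = AlgebraicClosure F`.  (1) `E(Ω)` is 2-divisible (use a library lemma: for instance
`halve` in `Pool/Graph/R_seed8/TH115/GD/Curve.lean` with the translation `TC/Shift.lean`, `IsC`).
(2) A class of `Ш[2]`: `f ∈ shaCoc`, `f + f ∈ cob`: `f σ + f σ = σ P - P`; choose `Q + Q = P`; `f' σ = f σ - (σ Q - Q)` is in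
`selC` and has the same class; so `Sel2 → T2 (Sha W) 1` (induced by the inclusion `selC ≤ shaCoc`) is surjective.
(3) For `P ∈ E(F)` choose `Q` with `Q + Q = P` (in `Ω`); `σ ↦ σ Q - Q` is in `selC` (locally constant: the stabilizer of `Q`
is open), its class is in the kernel of the map of (2), and if the classes of `P` and `P'` agree then `P - P' ∈ 2 E(F)`
(`Q - Q' - T` is fixed by the Galois group, so it is in `E(F)`).  So the kernel has at least
`#(E(F)/2 E(F)) ≥ 2^rank` elements (Mordell-Weil over number fields: `Pool.Agent.Q286.EQ.mordell_weil`, or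
`Pool/Graph/R_seed8/H64R2/DD_MWK.lean`; `2^rank ≤ #(M/2M)`: see the proof in `Q193/ESG/XTF.lean`).
(4) `#Sel2 = #kernel * #T2 (Sha W) 1` (`Sel2` finite). -/
def S_EXA : Prop := ∀ (F : Type) [Field F] [NumberField F] (A B : F), 4 * A ^ 3 + 27 * B ^ 2 ≠ 0 →
  Finite (Sel2 (⟨0, 0, 0, A, B⟩ : WeierstrassCurve F)) →
  Finite (T2 (Sha (⟨0, 0, 0, A, B⟩ : WeierstrassCurve F)) 1) ∧
  2 ^ Module.finrank ℤ (⟨0, 0, 0, A, B⟩ : WeierstrassCurve F).toAffine.Point *
    Nat.card (T2 (Sha (⟨0, 0, 0, A, B⟩ : WeierstrassCurve F)) 1) ≤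
    Nat.card (Sel2 (⟨0, 0, 0, A, B⟩ : WeierstrassCurve F))

open scoped Classical in
/-- JOB CNT. The theorem (helper575). -/
def S_CNT : Prop := ∀ (F ι : Type) [Field F] [NumberField F] [Fintype ι] (a b : ι → F),
  (∀ i, ∀ x : F, x ^ 3 + a i * x + b i ≠ 0) →
  ∃ C : ℝ, 0 < C ∧ ∀ (X : ℝ) (𝒟 : Finset F), 1 ≤ X → (∀ D ∈ 𝒟, D ≠ 0 ∧ (cond D : ℝ) ≤ X) →
    (∀ D ∈ 𝒟, ∀ D' ∈ 𝒟, D ≠ D' → ¬ IsSquare (D * D')) →
    (∀ D ∈ 𝒟, ∀ i, Finite (Sel2 (tw (a i) (b i) D))) ∧
    ((∑ D ∈ 𝒟, ∏ i, Nat.card (Sel2 (tw (a i) (b i) D)) : ℕ) : ℝ) ≤ C * X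

end Pool.Agent.H575.ES
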